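import Pool.Agent.H73.QX.Fin2

/-!
# QX Fin3: the quadratic fields in which `2` is inert; sets of primes
-/

set_option autoImplicit false

open NumberField IsDedekindDomain

namespace Pool.Agent.H73.QX

open Finset
open Pool.Agent.H11.NW (Wf)

/-- the primes which are good for `d` give the first case -/
theorem firstCase_Gd (p : ℕ) (hp : p.Prime) (hp7 : 7 ≤ p) (d : ℤ) (hG : Gd d p) (hd : Inert d)
    (K : Type*) [Field K] [NumberField K] (hK : Module.finrank ℚ K = 2) (δ : K)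
    (hδ : δ ^ 2 = (d : K)) : FirstCase K p := by
  haveI : Fact p.Prime := ⟨hp⟩
  have hps : ¬ (p : ℤ) ∣ -3 := by
    intro h
    have h1 : (p : ℤ) ∣ 3 := by simpa using h
    have h2 : p ∣ 3 := by exact_mod_cast h1
    have := Nat.le_of_dvd (by norm_num) h2
    omega
  have hne := legendre_ne p (-3) d hps hG.2
  have h8 := hd.2.1
  exact firstCase_of p (by omega) hG.1 K hK d hd.1 (by rintro rfl; norm_num at h8) δ hδ
    (fun h1 => by omega) (fun _ => hne)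

/-- the non-Wieferich primes `p ≥ 5` with a property -/
def NW (G : ℕ → Prop) (p : ℕ) : Prop := 5 ≤ p ∧ ¬ Wf p ∧ G p

/-- all but at most `2^(r-1) - 1` of the quadratic fields `≠ ℚ(√-3)` in which `2` is inert -/
theorem inert_but (r : ℕ) (hM : MassProp r) (hI : IndProp r) :
    ∃ E : Finset ℤ, E.card < 2 ^ (r - 1) ∧
      (∀ d ∈ E, Squarefree d ∧ d % 8 = 5 ∧ d ≠ -3) ∧
      ∀ d : ℤ, Squarefree d → d % 8 = 5 → d ≠ -3 → d ∉ E →
        ∀ (K : Type*) [Field K] [NumberField K], Module.finrank ℚ K = 2 →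
          ∀ δ : K, δ ^ 2 = (d : K) → Pos (NW (FirstCase K)) := by
  obtain ⟨E, c, e, f⟩ := exc r hM hI cntProp
  refine ⟨E, c, e, fun d hd h5 hd3 hdE K _ _ hK δ hδ => ?_⟩
  refine (f d ⟨hd, h5, hd3⟩ hdE).mono 7 fun p hp hp7 hG => ⟨by omega, hG.1, ?_⟩
  exact firstCase_Gd p hp hp7 d hG ⟨hd, h5, hd3⟩ K hK δ hδ

/-- lower density of the non-Wieferich primes `p ≥ 5` -/
theorem low_NW : ∃ x₀ : ℕ, ∀ x : ℕ, x₀ ≤ x →
    9 / 500 * (x : ℝ) / Real.log x ≤ (cnt (NW fun _ => True) x : ℝ) := by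
  obtain ⟨x₁, h₁⟩ := lowProp
  obtain ⟨x₂, h₂⟩ := Filter.eventually_atTop.1 (log_small (3 / 4000) (by norm_num) 5)
  refine ⟨max x₁ x₂, fun x hx => ?_⟩
  have a1 := h₁ x (le_trans (le_max_left _ _) hx)
  have a2 := h₂ x (le_trans (le_max_right _ _) hx)
  have a3 := cnt_mono (G := fun p => ¬ Wf p) (G' := NW fun _ => True) 5 x
    (fun p hp hpN hW => ⟨hpN, hW, trivial⟩)
  have a4 : 9 / 500 * (x : ℝ) / Real.log x + 3 / 4000 * (x : ℝ) / Real.log x =
      3 / 160 * (x : ℝ) / Real.log x := by ring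
  push_cast at a2 a3
  linarith

/-- `cnt` as the number of elements of a set -/
theorem cnt_eq (G : ℕ → Prop) (x : ℕ) :
    cnt G x = {p : ℕ | p.Prime ∧ p ≤ x ∧ G p}.ncard := by
  classical
  unfold cnt
  rw [← Set.ncard_coe_finset]
  congr 1
  ext p
  simp only [coe_filter, mem_Icc, Set.mem_ofPred_eq]
  constructor
  · rintro ⟨⟨-, h1⟩, h2, h3⟩
    exact ⟨h2, h1, h3⟩
  · rintro ⟨h2, h1, h3⟩
    exact ⟨⟨h2.one_lt.le, h1⟩, h2, h3⟩

end Pool.Agent.H73.QX
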