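import Pool.Agent.H73.QX.Fin4
import Pool.Agent.H80.HF.Mass
import Pool.Agent.H71.FD.Low

/-!
# QX HF3: a positive proportion of the primes for every quadratic field, from `HF.massH`
-/

set_option autoImplicit false

open NumberField IsDedekindDomain

namespace Pool.Agent.H73.QX

open Finset Filter
open Pool.Agent.H11.NW (Wf)
open Pool.Agent.H71.FD (th cn)

theorem le_th (G : ℕ → Prop) (x : ℕ) (s : Finset ℕ) (hs : ∀ p ∈ s, p.Prime ∧ p ≤ x ∧ G p) :
    ∑ p ∈ s, Real.log p ≤ th G x := by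
  classical
  unfold Pool.Agent.H71.FD.th
  refine Finset.sum_le_sum_of_subset_of_nonneg (fun p hp => ?_) fun p _ _ =>
    Real.log_natCast_nonneg p
  obtain ⟨h1, h2, h3⟩ := hs p hp
  rw [mem_filter, mem_Icc]
  exact ⟨⟨h1.one_lt.le, h2⟩, h1, h3⟩

/-- lower density of the non-Wieferich primes with `(D / p) = -1` -/
theorem low_class (D : ℤ) (hD0 : D ≠ 0) (hD : ¬ IsSquare D) :
    ∀ᶠ x : ℕ in atTop, 1 / 100 * ((x : ℝ) / Real.log x) ≤
      cn (fun p => 5 ≤ p ∧ ¬ Wf p ∧ jacobiSym D p = -1) x := by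
  classical
  refine Pool.Agent.H71.FD.cn_of_th (1 / 100) ?_
  obtain ⟨L₀, hL₀⟩ := eventually_atTop.1 (Pool.Agent.H80.HF.massH D hD0 hD)
  filter_upwards [eventually_ge_atTop (18 * (L₀ + 100))] with x hx
  set L := x / 18 with hL
  have h1 : L₀ + 100 ≤ L := by omega
  have h2 : 18 * L ≤ x := by omega
  have h3 : x < 18 * L + 18 := by omega
  have h4 := hL₀ L (by omega)
  have h5 : ∑ p ∈ (Ioc (2 * L) (18 * L)).filter
      (fun p => p.Prime ∧ jacobiSym D p = -1 ∧ ¬ p ^ 2 ∣ 2 ^ (p - 1) - 1), Real.log p ≤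
      th (fun p => 5 ≤ p ∧ ¬ Wf p ∧ jacobiSym D p = -1) x := by
    refine le_th _ x _ fun p hp => ?_
    rw [mem_filter, mem_Ioc] at hp
    exact ⟨hp.2.1, by omega, by omega, hp.2.2.2, hp.2.2.1⟩
  refine le_trans ?_ (h4.trans h5)
  have h6 : (x : ℝ) < 18 * L + 18 := by exact_mod_cast h3
  have h7 : (100 : ℝ) ≤ L := by exact_mod_cast (by omega : 100 ≤ L)
  linarith

/-- `-3 d` is not a square -/
theorem not_square (d : ℤ) (hd : Squarefree d) (h3 : d ≠ -3) : ¬ IsSquare (-3 * d) := by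
  rintro ⟨r, hr⟩
  have h1 : (3 : ℤ) ∣ r * r := ⟨-d, by linarith⟩
  have h2 : (3 : ℤ) ∣ r := by
    rcases (Int.prime_three.dvd_mul).1 h1 with h | h <;> exact h
  obtain ⟨t, rfl⟩ := h2
  have h4 : d = -3 * (t * t) := by linarith
  have h5 : IsUnit t := hd t ⟨-3, by rw [h4]; ring⟩
  rcases Int.isUnit_iff.1 h5 with h6 | h6 <;> rw [h6] at h4 <;> norm_num at h4 <;> exact h3 h4

/-- `2` inert: the criterion -/
theorem inert_case (d : ℤ) (hd : Squarefree d) (h5 : d % 8 = 5) (p : ℕ) (hp : p.Prime)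
    (hp5 : 5 ≤ p) (hW : ¬ Wf p) (hj : jacobiSym (-3 * d) p ≠ 1)
    (K : Type*) [Field K] [NumberField K] (hK : Module.finrank ℚ K = 2) (δ : K)
    (hδ : δ ^ 2 = (d : K)) : FirstCase K p := by
  have : Fact p.Prime := ⟨hp⟩
  have hps : ¬ (p : ℤ) ∣ -3 := by
    intro h
    have h1 : (p : ℤ) ∣ 3 := by simpa using h
    have h2 : p ∣ 3 := by exact_mod_cast h1
    have := Nat.le_of_dvd (by norm_num) h2
    omega
  have hne := legendre_ne p (-3) d hps hj
  exact firstCase_of p hp5 hW K hK d hd (by rintro rfl; norm_num at h5) δ hδ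
    (fun h1 => by omega) (fun _ => hne)

/-- `2` inert: lower density -/
theorem inert_low (d : ℤ) (hd : Squarefree d) (h5 : d % 8 = 5) (h3 : d ≠ -3)
    (K : Type*) [Field K] [NumberField K] (hK : Module.finrank ℚ K = 2) (δ : K)
    (hδ : δ ^ 2 = (d : K)) :
    ∀ᶠ x : ℕ in atTop, 1 / 100 * ((x : ℝ) / Real.log x) ≤ cn (NW (FirstCase K)) x := by
  filter_upwards [low_class (-3 * d) (by rintro h; omega) (not_square d hd h3)] with x hx
  refine hx.trans (Nat.cast_le.2 (Pool.Agent.H71.FD.cn_mono (fun p hp hg => ?_) x))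
  refine ⟨hg.1, hg.2.1, inert_case d hd h5 p hp hg.1 hg.2.1 ?_ K hK δ hδ⟩
  rw [hg.2.2]
  norm_num

end Pool.Agent.H73.QX
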