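import Pool.Agent.H73.QX.FC

/-!
# QX Asm: assembly

The analytic inputs are hypotheses here (`MassProp`, `IndProp`, `CntProp`); they are supplied in `QX.Fin2`.
-/

set_option autoImplicit false

open NumberField IsDedekindDomain

namespace Pool.Agent.H73.QX

open Finset
open Pool.Agent.H11.NW (Wf)

open Classical in
/-- the primes in `(2N, 12N-1]` with a property, weighted by the logarithm -/
noncomputable def mass (G : ℕ → Prop) (N : ℕ) : ℝ :=
  ∑ p ∈ (Ioc (2 * N) (12 * N - 1)).filter (fun p => p.Prime ∧ G p), Real.log p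

open Classical in
/-- the number of primes up to `x` with a property -/
noncomputable def cnt (G : ℕ → Prop) (x : ℕ) : ℕ :=
  ((Icc 1 x).filter (fun p => p.Prime ∧ G p)).card

/-- non-Wieferich primes for which `-3 d` is not a quadratic residue -/
def Gd (d : ℤ) (p : ℕ) : Prop := ¬ Wf p ∧ jacobiSym (-3 * d) p ≠ 1

/-- positive upper density among the primes -/
def Pos (G : ℕ → Prop) : Prop :=
  ∃ c : ℝ, 0 < c ∧ ∃ᶠ x : ℕ in Filter.atTop, c * (x : ℝ) / Real.log x ≤ (cnt G x : ℝ)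

/-- the squarefree integers `d ≠ -3` for which `2` is inert in `ℚ(√d)` -/
def Inert (d : ℤ) : Prop := Squarefree d ∧ d % 8 = 5 ∧ d ≠ -3

/-- no nonempty product of the numbers `-3 d` is a square -/
def Indep (T : Finset ℤ) : Prop := ∀ S ⊆ T, S.Nonempty → ¬ IsSquare (∏ d ∈ S, (-3 * d))

/-- the analytic input -/
def MassProp (r : ℕ) : Prop := ∀ T : Finset ℤ, T.card = r → (∀ d ∈ T, Inert d) → Indep T →
  ∃ c : ℝ, 0 < c ∧ ∃ᶠ m : ℕ in Filter.atTop,
    c * 2 ^ m ≤ mass (fun p => ¬ Wf p ∧ ∃ d ∈ T, jacobiSym (-3 * d) p ≠ 1) (2 ^ m)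

/-- the group part -/
def IndProp (r : ℕ) : Prop := ∀ B : Finset ℤ, (∀ d ∈ B, Inert d) → 2 ^ (r - 1) ≤ B.card →
  ∃ T ⊆ B, T.card = r ∧ Indep T

/-- from frequent masses to positive upper density -/
def CntProp : Prop := ∀ G : ℕ → Prop, ∀ c : ℝ, 0 < c →
  (∃ᶠ m : ℕ in Filter.atTop, c * 2 ^ m ≤ mass G (2 ^ m)) → Pos G

theorem mass_union (T : Finset ℤ) (N : ℕ) :
    mass (fun p => ¬ Wf p ∧ ∃ d ∈ T, jacobiSym (-3 * d) p ≠ 1) N ≤ ∑ d ∈ T, mass (Gd d) N := by
  classical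
  have h0 : ∀ p : ℕ, 0 ≤ Real.log p := fun p => Real.log_natCast_nonneg p
  unfold mass
  simp_rw [Finset.sum_filter]
  rw [Finset.sum_comm]
  refine Finset.sum_le_sum fun p _ => ?_
  by_cases h : p.Prime ∧ ¬ Wf p ∧ ∃ d ∈ T, jacobiSym (-3 * d) p ≠ 1
  · rw [if_pos h]
    obtain ⟨hp, hW, d, hd, hj⟩ := h
    refine le_trans ?_ (Finset.single_le_sum (f := fun d => if p.Prime ∧ Gd d p then Real.log p
      else 0) (fun e _ => ?_) hd)
    · rw [if_pos ⟨hp, hW, hj⟩]
    · split_ifs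
      · exact h0 p
      · exact le_rfl
  · rw [if_neg h]
    refine Finset.sum_nonneg fun e _ => ?_
    split_ifs
    · exact h0 p
    · exact le_rfl

/-- Among `2^(r-1)` integers `d` with `Inert d` one has `Pos (Gd d)`. -/
theorem exists_pos (r : ℕ) (hM : MassProp r) (hI : IndProp r) (hC : CntProp)
    (B : Finset ℤ) (hB : ∀ d ∈ B, Inert d) (hc : 2 ^ (r - 1) ≤ B.card) :
    ∃ d ∈ B, Pos (Gd d) := by
  classical
  by_contra hcon
  push Not at hcon
  obtain ⟨T, hTB, hTr, hT⟩ := hI B hB hc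
  obtain ⟨c, hc0, hm1⟩ := hM T hTr (fun d hd => hB d (hTB hd)) hT
  have hno : ∀ d ∈ T, ∀ᶠ m : ℕ in Filter.atTop, mass (Gd d) (2 ^ m) < c / (T.card + 1) * 2 ^ m := by
    intro d hd
    have h1 := hcon d (hTB hd)
    by_contra h2
    rw [Filter.not_eventually] at h2
    refine h1 (hC (Gd d) (c / (T.card + 1)) (by positivity) (h2.mono fun m hm => not_lt.1 hm))
  have hall : ∀ᶠ m : ℕ in Filter.atTop, ∀ d ∈ T,
      mass (Gd d) (2 ^ m) < c / (T.card + 1) * 2 ^ m := by
    rw [Filter.eventually_all_finset]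
    exact hno
  obtain ⟨m, hm', hm⟩ := (hm1.and_eventually hall).exists
  have h3 := hm'.trans (mass_union T (2 ^ m))
  have h4 : ∑ d ∈ T, mass (Gd d) (2 ^ m) ≤ ∑ _d ∈ T, c / (T.card + 1) * 2 ^ m :=
    Finset.sum_le_sum fun d hd => (hm d hd).le
  rw [Finset.sum_const, nsmul_eq_mul] at h4
  have h5 : c * 2 ^ m ≤ (T.card : ℝ) * (c / (T.card + 1) * 2 ^ m) := h3.trans h4
  have h6 : (T.card : ℝ) * (c / (T.card + 1) * 2 ^ m) < c * 2 ^ m := by
    have h7 : (0 : ℝ) < c * 2 ^ m := by positivity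
    have h8 : (T.card : ℝ) * (c / (T.card + 1) * 2 ^ m) = (T.card : ℝ) / (T.card + 1) * (c * 2 ^ m) := by
      ring
    rw [h8]
    have h9 : (T.card : ℝ) / (T.card + 1) < 1 := by
      rw [div_lt_one (by positivity)]
      linarith
    nlinarith
  linarith

/-- a set all of whose finite subsets have fewer than `n` elements -/
theorem finite_of_card {S : Set ℤ} {n : ℕ} (h : ∀ B : Finset ℤ, (B : Set ℤ) ⊆ S → B.card < n) :
    ∃ E : Finset ℤ, (E : Set ℤ) = S ∧ E.card < n := by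
  have hfin : S.Finite := by
    by_contra hinf
    obtain ⟨t, ht, htc⟩ := Set.Infinite.exists_subset_card_eq hinf n
    have := h t ht
    omega
  exact ⟨hfin.toFinset, hfin.coe_toFinset, h _ (by rw [hfin.coe_toFinset])⟩

/-- the exceptional set -/
theorem exc (r : ℕ) (hM : MassProp r) (hI : IndProp r) (hC : CntProp) :
    ∃ E : Finset ℤ, E.card < 2 ^ (r - 1) ∧ (∀ d ∈ E, Inert d) ∧
      ∀ d : ℤ, Inert d → d ∉ E → Pos (Gd d) := by
  obtain ⟨E, hE, hEc⟩ := finite_of_card (S := {d : ℤ | Inert d ∧ ¬ Pos (Gd d)})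
    (n := 2 ^ (r - 1)) (fun B hB => by
      by_contra hcon
      push Not at hcon
      obtain ⟨d, hd, hd'⟩ := exists_pos r hM hI hC B (fun d hd => (hB hd).1) hcon
      exact (hB hd).2 hd')
  refine ⟨E, hEc, fun d hd => ?_, fun d hd hdE => ?_⟩
  · have h1 : d ∈ (E : Set ℤ) := hd
    rw [hE] at h1
    exact h1.1
  · by_contra hcon
    refine hdE ?_
    have h1 : d ∈ (E : Set ℤ) := by
      rw [hE]
      exact ⟨hd, hcon⟩
    exact h1

theorem cnt_mono {G G' : ℕ → Prop} (N x : ℕ) (hG : ∀ p : ℕ, p.Prime → N ≤ p → G p → G' p) :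
    (cnt G x : ℝ) ≤ cnt G' x + N := by
  classical
  have h3 : cnt G x ≤ cnt G' x + N := by
    unfold cnt
    have h4 : (Icc 1 x).filter (fun p => p.Prime ∧ G p) ⊆
        ((Icc 1 x).filter (fun p => p.Prime ∧ G' p)) ∪ range N := by
      intro p hp
      rw [mem_filter] at hp
      rw [mem_union, mem_filter, mem_range]
      rcases Nat.lt_or_ge p N with h | h
      · exact Or.inr h
      · exact Or.inl ⟨hp.1, hp.2.1, hG p hp.2.1 h hp.2.2⟩
    refine (card_le_card h4).trans ((card_union_le _ _).trans ?_)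
    rw [card_range]
  exact_mod_cast h3

theorem log_small (c : ℝ) (hc : 0 < c) (N : ℕ) : ∀ᶠ x : ℕ in Filter.atTop,
    (N : ℝ) ≤ c * (x : ℝ) / Real.log x := by
  have h1 : (fun x : ℝ => Real.log x) =o[Filter.atTop] (fun x : ℝ => x) :=
    Real.isLittleO_log_id_atTop
  have h2 := h1.bound (c := c / (N + 1)) (by positivity)
  have h3 := tendsto_natCast_atTop_atTop (R := ℝ) |>.eventually h2
  filter_upwards [h3, Filter.eventually_ge_atTop 3] with x hx hx3
  have hx3' : (3 : ℝ) ≤ x := by exact_mod_cast hx3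
  have hl : 0 < Real.log x := Real.log_pos (by linarith)
  rw [Real.norm_of_nonneg hl.le, Real.norm_of_nonneg (by linarith)] at hx
  rw [le_div_iff₀ hl]
  have h4 : (N : ℝ) * Real.log x ≤ (N + 1) * (c / (N + 1) * x) := by
    have h5 : 0 ≤ c / (N + 1) * (x : ℝ) := by positivity
    have h6 : (0 : ℝ) ≤ N := Nat.cast_nonneg _
    nlinarith
  refine h4.trans (le_of_eq ?_)
  field_simp

theorem Pos.mono {G G' : ℕ → Prop} (h : Pos G) (N : ℕ) (hG : ∀ p : ℕ, p.Prime → N ≤ p → G p → G' p) :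
    Pos G' := by
  obtain ⟨c, hc, hf⟩ := h
  refine ⟨c / 2, by positivity, ?_⟩
  refine (hf.and_eventually (log_small (c / 2) (by positivity) N)).mono fun x hx => ?_
  obtain ⟨hx1, hx2⟩ := hx
  have h4 := cnt_mono N x hG
  have h5 : c * (x : ℝ) / Real.log x = c / 2 * (x : ℝ) / Real.log x + c / 2 * (x : ℝ) / Real.log x := by
    ring
  linarith

/-- the condition on `p` -/
theorem legendre_ne (p : ℕ) [Fact p.Prime] (s d : ℤ) (hs : ¬ (p : ℤ) ∣ s)
    (h : jacobiSym (s * d) p ≠ 1) : legendreSym p d ≠ legendreSym p s := by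
  intro heq
  apply h
  rw [← jacobiSym.legendreSym.to_jacobiSym, legendreSym.mul, heq, ← pow_two]
  refine legendreSym.sq_one p ?_
  intro h0
  exact hs ((ZMod.intCast_zmod_eq_zero_iff_dvd s p).1 h0)

end Pool.Agent.H73.QX
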