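import Pool.Agent.H73.QX.Mix4
import Pool.Agent.H73.QX.Asm

/-!
# QX Mix5: a prime of norm `q`; the first case at the primes with `3 ^ (p - 1) ≢ 1 (mod p ^ 2)`

`exists_norm`: if `d` is a square modulo the odd prime `q`, then `ℚ(√d)` has a prime of norm `q`.
`three_case`: if `3` is not inert in the quadratic field `K = ℚ(√d)`, then for all large `p` with
`(d / p) ≠ (-3 / p)` and `3 ^ (p - 1) ≢ 1 (mod p ^ 2)` the first case holds over `K` (strong form).
-/

set_option autoImplicit false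

open NumberField IsDedekindDomain

namespace Pool.Agent.H73.QX

open H91SP
open Pool.Agent.H22.WQ (IsCj)

theorem rat_int {K : Type*} [Field K] [NumberField K] (r : ℚ) (h : IsIntegral ℤ (r : K)) :
    ∃ n : ℤ, (n : ℚ) = r := by
  have h4 : IsIntegral ℤ r := by
    have h5 : IsIntegral ℤ (algebraMap ℚ K r) := by rwa [eq_ratCast]
    exact (isIntegral_algebraMap_iff (algebraMap ℚ K).injective).1 h5
  obtain ⟨n, hn⟩ := IsIntegrallyClosed.isIntegral_iff.1 h4
  exact ⟨n, hn⟩

/-- `(δ - e) / q` and `(-δ - e) / q` are not integral -/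
theorem not_int_div {K : Type*} [Field K] [NumberField K] (hK : Module.finrank ℚ K = 2)
    (d : ℤ) (hd : Squarefree d) (hd1 : d ≠ 1) (δ : K) (hδ : δ ^ 2 = (d : K)) (q : ℕ) (hq : q.Prime)
    (hq2 : q ≠ 2) (e : ℤ) (hde : (q : ℤ) ∣ d - e ^ 2) (y : K) (s : K) (hs : s = 1 ∨ s = -1)
    (hy : (q : K) * y = s * δ - e) : ¬ IsIntegral ℤ y := by
  intro hint
  have hq0 : (q : K) ≠ 0 := Nat.cast_ne_zero.2 hq.ne_zero
  have hq0' : (q : ℚ) ≠ 0 := Nat.cast_ne_zero.2 hq.ne_zero
  obtain ⟨σ, _, hσ, _⟩ := Pool.Agent.H22.WQ.exists_cj hK d hd hd1 δ hδ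
  have hint' : IsIntegral ℤ (σ y) := hint.map σ.toAlgHom
  have hy' : (q : K) * σ y = -(s * δ) - e := by
    have h5 := congrArg σ hy
    rw [map_mul, map_natCast, map_sub, map_mul, hσ, map_intCast] at h5
    rcases hs with rfl | rfl
    · rw [map_one] at h5
      rw [h5]; ring
    · rw [map_neg, map_one] at h5
      rw [h5]; ring
  -- `q ∣ e`
  have h1 : y + σ y = (((-2 * e : ℤ) : ℚ) / (q : ℚ) : ℚ) := by
    have h2 : (q : K) * (y + σ y) = -2 * e := by linear_combination hy + hy'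
    push_cast
    field_simp
    linear_combination h2
  obtain ⟨n, hn⟩ := rat_int (K := K) _ (by rw [← h1]; exact hint.add hint')
  have h3 : n * (q : ℤ) = -2 * e := by
    have h4 : (n : ℚ) * (q : ℚ) = ((-2 * e : ℤ) : ℚ) := by
      rw [hn]; field_simp
    exact_mod_cast h4
  have hqp := Nat.prime_iff_prime_int.1 hq
  have h5 : (q : ℤ) ∣ e := by
    have h6 : (q : ℤ) ∣ -2 * e := ⟨n, by linarith⟩
    rcases hqp.dvd_or_dvd h6 with h7 | h7
    · exfalso
      have h8 : (q : ℤ) ∣ 2 := by rwa [dvd_neg] at h7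
      have h9 : q ∣ 2 := by exact_mod_cast h8
      exact hq2 ((Nat.prime_dvd_prime_iff_eq hq Nat.prime_two).1 h9)
    · exact h7
  obtain ⟨f, rfl⟩ := h5
  -- `d / q ^ 2` is integral
  have h6 : IsIntegral ℤ (y + f) := hint.add (isIntegral_algebraMap (x := f))
  have h7 : (q : K) * (y + f) = s * δ := by
    push_cast at hy
    linear_combination hy
  have h8 : (y + f) ^ 2 = (((d : ℤ) : ℚ) / (q : ℚ) ^ 2 : ℚ) := by
    have h9 : (q : K) ^ 2 * (y + f) ^ 2 = (d : K) := by
      have h10 : ((q : K) * (y + f)) ^ 2 = s ^ 2 * δ ^ 2 := by rw [h7]; ring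
      have hs2 : s ^ 2 = 1 := by rcases hs with rfl | rfl <;> norm_num
      rw [hs2, hδ, one_mul] at h10
      linear_combination h10
    push_cast
    field_simp
    linear_combination h9
  obtain ⟨m, hm⟩ := rat_int (K := K) _ (by rw [← h8]; exact h6.pow 2)
  have h9 : m * (q : ℤ) ^ 2 = d := by
    have h4 : (m : ℚ) * (q : ℚ) ^ 2 = ((d : ℤ) : ℚ) := by
      rw [hm]; field_simp
    exact_mod_cast h4
  have h10 : (q : ℤ) * (q : ℤ) ∣ d := ⟨m, by rw [← h9]; ring⟩
  exact hqp.not_unit (hd _ h10)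

/-- if `d` is a square modulo the odd prime `q`, then `ℚ(√d)` has a prime of norm `q` -/
theorem exists_norm {K : Type*} [Field K] [NumberField K] (hK : Module.finrank ℚ K = 2)
    (d : ℤ) (hd : Squarefree d) (hd1 : d ≠ 1) (δ : K) (hδ : δ ^ 2 = (d : K)) (q : ℕ) (hq : q.Prime)
    (hq2 : q ≠ 2) (e : ℤ) (hde : (q : ℤ) ∣ d - e ^ 2) :
    ∃ Q : HeightOneSpectrum (𝓞 K), Nat.card (𝓞 K ⧸ Q.asIdeal) = q := by
  have hδint : IsIntegral ℤ δ := by
    refine IsIntegral.of_pow (n := 2) (by norm_num) ?_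
    rw [hδ]
    exact isIntegral_algebraMap (x := d)
  let D : 𝓞 K := ⟨δ, hδint⟩
  have hD : ((D : 𝓞 K) : K) = δ := rfl
  have hD2 : D ^ 2 = (d : 𝓞 K) := by
    apply RingOfIntegers.ext
    change algebraMap (𝓞 K) K (D ^ 2) = algebraMap (𝓞 K) K (d : 𝓞 K)
    rw [map_pow, map_intCast]
    exact hδ
  obtain ⟨v, hv⟩ := exists_above K q hq
  have hcard : Nat.card (𝓞 K ⧸ v.asIdeal) = Ideal.absNorm v.asIdeal := by
    rw [Ideal.absNorm_apply]
    rfl
  have hq1 := dvd_absNorm K q hq v hv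
  refine ⟨v, ?_⟩
  rw [hcard]
  have hle : Ideal.span {(q : 𝓞 K)} ≤ v.asIdeal := by
    rw [Ideal.span_singleton_le_iff_mem]
    exact hv
  have hN2 : Ideal.absNorm (Ideal.span {(q : 𝓞 K)}) = q ^ 2 := by
    rw [Ideal.absNorm_span_singleton]
    have h4 : Algebra.norm ℤ ((q : ℕ) : 𝓞 K) = (q : ℤ) ^ Module.finrank ℤ (𝓞 K) := by
      have h5 : ((q : ℕ) : 𝓞 K) = algebraMap ℤ (𝓞 K) (q : ℤ) := by simp
      rw [h5, Algebra.norm_algebraMap]
    rw [h4, RingOfIntegers.rank, hK, Int.natAbs_pow, Int.natAbs_natCast]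
  have hdvd : Ideal.absNorm v.asIdeal ∣ q ^ 2 := by
    rw [← hN2]
    exact Ideal.absNorm_dvd_absNorm_of_le hle
  obtain ⟨k, hk, hk'⟩ := (Nat.dvd_prime_pow hq).1 hdvd
  have hk0 : k ≠ 0 := by
    rintro rfl
    rw [pow_zero] at hk'
    rw [hk'] at hq1
    exact hq.one_lt.ne' (Nat.dvd_one.1 hq1)
  have hk2 : k ≠ 2 := by
    rintro rfl
    obtain ⟨J, hJ⟩ := Ideal.dvd_iff_le.2 hle
    have h1 := congrArg Ideal.absNorm hJ
    rw [map_mul, hN2, hk'] at h1
    have h2 : Ideal.absNorm J = 1 := by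
      have h3 : 0 < q ^ 2 := pow_pos hq.pos 2
      nlinarith [h1, h3]
    rw [Ideal.absNorm_eq_one_iff.1 h2, Ideal.mul_top] at hJ
    have hmem : (D - e) * (-D - e) ∈ v.asIdeal := by
      rw [← hJ, Ideal.mem_span_singleton]
      have h3 : (D - (e : 𝓞 K)) * (-D - (e : 𝓞 K)) = -(((d - e ^ 2 : ℤ)) : 𝓞 K) := by
        push_cast
        linear_combination -hD2
      rw [h3, dvd_neg]
      obtain ⟨f, hf⟩ := hde
      rw [hf]
      push_cast
      exact dvd_mul_right _ _
    rcases v.isPrime.mem_or_mem hmem with h3 | h3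
    · rw [← hJ, Ideal.mem_span_singleton] at h3
      obtain ⟨y, hy⟩ := h3
      refine not_int_div hK d hd hd1 δ hδ q hq hq2 e hde (y : K) 1 (Or.inl rfl) ?_ y.2
      have h4 := congrArg (algebraMap (𝓞 K) K) hy
      rw [map_sub, map_mul, map_intCast, map_natCast] at h4
      rw [one_mul]
      exact h4.symm
    · rw [← hJ, Ideal.mem_span_singleton] at h3
      obtain ⟨y, hy⟩ := h3
      refine not_int_div hK d hd hd1 δ hδ q hq hq2 e hde (y : K) (-1) (Or.inr rfl) ?_ y.2
      have h4 := congrArg (algebraMap (𝓞 K) K) hy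
      rw [map_sub, map_neg, map_mul, map_intCast, map_natCast] at h4
      rw [neg_one_mul]
      exact h4.symm
  have hk1 : k = 1 := by omega
  rw [hk', hk1, pow_one]

/-- if `3` is not inert in `ℚ(√d)`, there is a prime of norm `3` -/
theorem exists_three {K : Type*} [Field K] [NumberField K] (hK : Module.finrank ℚ K = 2)
    (d : ℤ) (hd : Squarefree d) (hd1 : d ≠ 1) (δ : K) (hδ : δ ^ 2 = (d : K)) (h3 : d % 3 ≠ 2) :
    ∃ Q : HeightOneSpectrum (𝓞 K), Nat.card (𝓞 K ⧸ Q.asIdeal) = 3 := by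
  have h : d % 3 = 0 ∨ d % 3 = 1 := by omega
  rcases h with h | h
  · exact exists_norm hK d hd hd1 δ hδ 3 Nat.prime_three (by norm_num) 0 (by push_cast; omega)
  · exact exists_norm hK d hd hd1 δ hδ 3 Nat.prime_three (by norm_num) 1 (by push_cast; omega)

/-- strong form from weak form -/
theorem firstCase_three (p : ℕ) [Fact p.Prime] (hp5 : 5 ≤ p) (K : Type*) [Field K] [NumberField K]
    (hK : Module.finrank ℚ K = 2) (hu : Unr p K) (hcl : ¬ p ∣ NumberField.classNumber K) (d : ℤ)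
    (hd : Squarefree d) (hd1 : d ≠ 1) (δ : K) (hδ : δ ^ 2 = (d : K))
    (Q : HeightOneSpectrum (𝓞 K)) (hQ : Nat.card (𝓞 K ⧸ Q.asIdeal) = 3)
    (hq : ¬ p ^ 2 ∣ 3 ^ (p - 1) - 1) (hweak : WeakCase K p) : FirstCase K p := by
  have hp : p.Prime := Fact.out
  obtain ⟨σ, hσ, -, -⟩ := Pool.Agent.H22.WQ.exists_cj hK d hd hd1 δ hδ
  intro a b c ha hb hc h v hv hN
  obtain ⟨w, hw, hwN⟩ := hweak a b c ha hb hc h
  have key : ∀ x y z : K, x ^ p + y ^ p + z ^ p = 0 →
      w.valuation K x ≤ max (w.valuation K y) (w.valuation K z) := by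
    intro x y z hxyz
    have h1 : x ^ p = -(y ^ p + z ^ p) := by linear_combination hxyz
    have h2 : w.valuation K x ^ p ≤ max (w.valuation K y ^ p) (w.valuation K z ^ p) := by
      rw [← map_pow, h1, Valuation.map_neg, ← map_pow, ← map_pow]
      exact Valuation.map_add _ _ _
    by_contra hcon
    push Not at hcon
    obtain ⟨h3, h4⟩ := max_lt_iff.mp hcon
    have h5 : w.valuation K y ^ p < w.valuation K x ^ p := pow_lt_pow_left₀ h3 zero_le hp.ne_zero
    have h6 : w.valuation K z ^ p < w.valuation K x ^ p := pow_lt_pow_left₀ h4 zero_le hp.ne_zero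
    exact absurd h2 (not_le.mpr (max_lt h5 h6))
  have k1 := key a b c h
  have k2 := key b a c (by linear_combination h)
  have k3 := key c a b (by linear_combination h)
  rcases lt_trichotomy (w.valuation K a) (w.valuation K b) with hab | hab | hab
  · have h1 : w.valuation K b ≤ w.valuation K c := by
      rcases le_max_iff.mp k2 with h0 | h0
      · exact absurd hab (not_lt.mpr h0)
      · exact h0
    have h2 : w.valuation K c ≤ w.valuation K b := by
      rcases le_max_iff.mp k3 with h0 | h0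
      · exact h0.trans hab.le
      · exact h0
    exact mixed_false p hp5 K hK hu hcl σ hσ a b c ha hb hc h w v hw hv hab (le_antisymm h1 h2)
      hN.1 hN.2 Q hQ hq
  · have h1 : w.valuation K c ≤ w.valuation K a := by
      rcases le_max_iff.mp k3 with h0 | h0
      · exact h0
      · exact h0.trans hab.symm.le
    have h2 : w.valuation K c ≠ w.valuation K a := fun h0 => hwN ⟨hab, by rw [← hab, h0]⟩
    exact mixed_false p hp5 K hK hu hcl σ hσ c a b hc ha hb (by linear_combination h) w v hw hv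
      (lt_of_le_of_ne h1 h2) hab (hN.1.trans hN.2).symm hN.1 Q hQ hq
  · have h1 : w.valuation K a ≤ w.valuation K c := by
      rcases le_max_iff.mp k1 with h0 | h0
      · exact absurd hab (not_lt.mpr h0)
      · exact h0
    have h2 : w.valuation K c ≤ w.valuation K a := by
      rcases le_max_iff.mp k3 with h0 | h0
      · exact h0
      · exact h0.trans hab.le
    exact mixed_false p hp5 K hK hu hcl σ hσ b a c hb ha hc (by linear_combination h) w v hw hv
      hab (le_antisymm h1 h2) hN.1.symm (hN.1.trans hN.2) Q hQ hq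

/-- if `3` is not inert in `K`, the first case holds for all large `p` with `(d / p) ≠ (-3 / p)` and
`3 ^ (p - 1) ≢ 1 (mod p ^ 2)` -/
theorem three_case (K : Type*) [Field K] [NumberField K] (hK : Module.finrank ℚ K = 2) (d : ℤ)
    (hd : Squarefree d) (hd1 : d ≠ 1) (h3 : d % 3 ≠ 2) (δ : K) (hδ : δ ^ 2 = (d : K)) :
    ∃ N : ℕ, ∀ p : ℕ, p.Prime → N ≤ p → ¬ p ^ 2 ∣ 3 ^ (p - 1) - 1 →
      jacobiSym (-3 * d) p ≠ 1 → FirstCase K p := by
  obtain ⟨Q, hQ⟩ := exists_three hK d hd hd1 δ hδ h3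
  obtain ⟨M, hM⟩ := (H91SP.bad_primes_finite K).bddAbove
  refine ⟨M + 7 + d.natAbs, fun p hp hpN hq hj => ?_⟩
  have : Fact p.Prime := ⟨hp⟩
  have hgood : H91SP.Unr p K ∧ ¬ p ∣ NumberField.classNumber K := by
    by_contra hcon
    have h1 : p ∈ {p : ℕ | p.Prime ∧ (¬ H91SP.Unr p K ∨ p ∣ NumberField.classNumber K)} := by
      refine ⟨hp, ?_⟩
      by_contra h2
      push Not at h2
      exact hcon h2
    have := hM h1
    omega
  have hps : ¬ (p : ℤ) ∣ -3 := by
    intro h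
    have h1 : (p : ℤ) ∣ 3 := by simpa using h
    have h2 : p ∣ 3 := by exact_mod_cast h1
    have := Nat.le_of_dvd (by norm_num) h2
    omega
  have hne := legendre_ne p (-3) d hps hj
  have hd0 : d ≠ 0 := hd.ne_zero
  have hpd : ¬ (p : ℤ) ∣ d := by
    intro h
    have h1 := Int.natAbs_dvd_natAbs.2 h
    rw [Int.natAbs_natCast] at h1
    have := Nat.le_of_dvd (Int.natAbs_pos.2 hd0) h1
    omega
  have hsq : ¬ IsSquare d := by
    rintro ⟨r, hr⟩
    have h1 : IsUnit r := hd r ⟨1, by rw [mul_one]; exact hr⟩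
    rcases Int.isUnit_iff.1 h1 with h2 | h2 <;> rw [h2] at hr <;> norm_num at hr <;> exact hd1 hr
  refine firstCase_three p (by omega) K hK hgood.1 hgood.2 d hd hd1 δ hδ Q hQ hq ?_
  intro a b c ha hb hc h
  by_contra hcon
  push Not at hcon
  have hm := H91SP.mir_final p K hK (by omega) hgood.1 hgood.2 a b c ha hb hc h hcon Q
    (Or.inl ⟨hQ, by omega, hq⟩)
  exact hne (hm.2 d δ hδ hsq hpd)

end Pool.Agent.H73.QX
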