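import Pool.Agent.H22.WQ.Fin
import Pool.Agent.H11.NW.Defs

/-!
# QX FC: the first case over a quadratic field, from the criterion of `H22.WQ`

`FirstCase K p`: for every solution of the Fermat equation of exponent `p` in nonzero elements of `K`,
every prime above `p` divides one of them (up to a common factor).  `WeakCase K p`: some prime above `p`
does.  For a prime `p` which is not a Wieferich prime both are equivalent over a quadratic field.
-/

set_option autoImplicit false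

open NumberField IsDedekindDomain

namespace Pool.Agent.H73.QX

open Pool.Agent.H22.WQ

/-- For all nonzero `a, b, c ∈ K` with `a ^ p + b ^ p + c ^ p = 0` and every prime `v` of `K` above `p`,
the valuations of `a, b, c` at `v` are not all equal. -/
def FirstCase (K : Type*) [Field K] [NumberField K] (p : ℕ) : Prop :=
  ∀ a b c : K, a ≠ 0 → b ≠ 0 → c ≠ 0 → a ^ p + b ^ p + c ^ p = 0 →
    ∀ v : HeightOneSpectrum (𝓞 K), (p : 𝓞 K) ∈ v.asIdeal →
      ¬ (v.valuation K a = v.valuation K b ∧ v.valuation K b = v.valuation K c)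

/-- For all nonzero `a, b, c ∈ K` with `a ^ p + b ^ p + c ^ p = 0` there is a prime `v` of `K` above `p`
such that the valuations of `a, b, c` at `v` are not all equal. -/
def WeakCase (K : Type*) [Field K] [NumberField K] (p : ℕ) : Prop :=
  ∀ a b c : K, a ≠ 0 → b ≠ 0 → c ≠ 0 → a ^ p + b ^ p + c ^ p = 0 →
    ∃ v : HeightOneSpectrum (𝓞 K), (p : 𝓞 K) ∈ v.asIdeal ∧
      ¬ (v.valuation K a = v.valuation K b ∧ v.valuation K b = v.valuation K c)

theorem exists_above (K : Type*) [Field K] [NumberField K] (p : ℕ) (hp : p.Prime) :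
    ∃ v : HeightOneSpectrum (𝓞 K), (p : 𝓞 K) ∈ v.asIdeal := by
  have h1 : ¬ IsUnit ((p : ℕ) : 𝓞 K) := by
    intro h
    have h2 := (NumberField.isUnit_iff_norm (K := K)).1 h
    have h3 : (RingOfIntegers.norm ℚ ((p : ℕ) : 𝓞 K) : ℚ) = (p : ℚ) ^ Module.finrank ℚ K := by
      rw [RingOfIntegers.coe_norm]
      have : (((p : ℕ) : 𝓞 K) : K) = algebraMap ℚ K (p : ℚ) := by simp
      rw [this, Algebra.norm_algebraMap]
    rw [h3] at h2
    have h4 : (1 : ℚ) < (p : ℚ) := by exact_mod_cast hp.one_lt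
    have h5 : (1 : ℚ) < (p : ℚ) ^ Module.finrank ℚ K :=
      one_lt_pow₀ h4 (Module.finrank_pos).ne'
    rw [abs_of_pos (by linarith)] at h2
    linarith
  obtain ⟨M, hM, hpM⟩ := exists_max_ideal_of_mem_nonunits h1
  refine ⟨⟨M, hM.isPrime, ?_⟩, hpM⟩
  rintro rfl
  rw [Ideal.mem_bot] at hpM
  exact hp.ne_zero (by exact_mod_cast hpM)

theorem dvd_absNorm (K : Type*) [Field K] [NumberField K] (p : ℕ) (hp : p.Prime)
    (v : HeightOneSpectrum (𝓞 K)) (hv : (p : 𝓞 K) ∈ v.asIdeal) :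
    p ∣ Ideal.absNorm v.asIdeal := by
  have h1 : v.asIdeal ∣ Ideal.span {(p : 𝓞 K)} := by
    rw [Ideal.dvd_span_singleton]
    exact hv
  have h2 := Ideal.absNorm_dvd_absNorm_of_le (Ideal.le_of_dvd h1)
  have h3 : Ideal.absNorm (Ideal.span {(p : 𝓞 K)}) = p ^ Module.finrank ℚ K := by
    rw [Ideal.absNorm_span_singleton]
    have h4 : Algebra.norm ℤ ((p : ℕ) : 𝓞 K) = (p : ℤ) ^ Module.finrank ℤ (𝓞 K) := by
      have h5 : ((p : ℕ) : 𝓞 K) = algebraMap ℤ (𝓞 K) (p : ℤ) := by simp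
      rw [h5, Algebra.norm_algebraMap]
    rw [h4, RingOfIntegers.rank, Int.natAbs_pow, Int.natAbs_natCast]
  rw [h3] at h2
  obtain ⟨k, -, hk⟩ := (Nat.dvd_prime_pow hp).1 h2
  rcases Nat.eq_zero_or_pos k with h0 | h0
  · rw [h0, pow_zero, Ideal.absNorm_eq_one_iff] at hk
    exact absurd hk v.isPrime.ne_top
  · rw [hk]
    exact dvd_pow_self p h0.ne'

/-- a quadratic field has at most two primes above `p` -/
theorem at_most_two (K : Type*) [Field K] [NumberField K] (hK : Module.finrank ℚ K = 2) (p : ℕ)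
    (hp : p.Prime) (v₁ v₂ v : HeightOneSpectrum (𝓞 K)) (h₁ : (p : 𝓞 K) ∈ v₁.asIdeal)
    (h₂ : (p : 𝓞 K) ∈ v₂.asIdeal) (h : (p : 𝓞 K) ∈ v.asIdeal) (h12 : v₁ ≠ v₂) :
    v = v₁ ∨ v = v₂ := by
  by_contra hcon
  push Not at hcon
  have c : ∀ u w : HeightOneSpectrum (𝓞 K), u ≠ w → IsCoprime u.asIdeal w.asIdeal := by
    intro u w huw
    rw [Ideal.isCoprime_iff_sup_eq]
    exact u.isMaximal.coprime_of_ne w.isMaximal (fun h => huw (HeightOneSpectrum.ext h))
  have d1 : ∀ w : HeightOneSpectrum (𝓞 K), (p : 𝓞 K) ∈ w.asIdeal →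
      w.asIdeal ∣ Ideal.span {(p : 𝓞 K)} := by
    intro w hw
    rw [Ideal.dvd_span_singleton]
    exact hw
  have e1 : v₁.asIdeal * v₂.asIdeal ∣ Ideal.span {(p : 𝓞 K)} :=
    (c v₁ v₂ h12).mul_dvd (d1 v₁ h₁) (d1 v₂ h₂)
  have e2 : v₁.asIdeal * v₂.asIdeal * v.asIdeal ∣ Ideal.span {(p : 𝓞 K)} :=
    (IsCoprime.mul_left (c v₁ v (Ne.symm hcon.1)) (c v₂ v (Ne.symm hcon.2))).mul_dvd e1 (d1 v h)
  have e3 := Ideal.absNorm_dvd_absNorm_of_le (Ideal.le_of_dvd e2)
  have h3 : Ideal.absNorm (Ideal.span {(p : 𝓞 K)}) = p ^ 2 := by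
    rw [Ideal.absNorm_span_singleton]
    have h4 : Algebra.norm ℤ ((p : ℕ) : 𝓞 K) = (p : ℤ) ^ Module.finrank ℤ (𝓞 K) := by
      have h5 : ((p : ℕ) : 𝓞 K) = algebraMap ℤ (𝓞 K) (p : ℤ) := by simp
      rw [h5, Algebra.norm_algebraMap]
    rw [h4, RingOfIntegers.rank, hK, Int.natAbs_pow, Int.natAbs_natCast]
  rw [h3, map_mul, map_mul] at e3
  have e4 : p * p * p ∣ p ^ 2 := (mul_dvd_mul (mul_dvd_mul (dvd_absNorm K p hp v₁ h₁)
    (dvd_absNorm K p hp v₂ h₂)) (dvd_absNorm K p hp v h)).trans e3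
  have e5 := Nat.le_of_dvd (pow_pos hp.pos 2) e4
  have e6 := hp.two_le
  nlinarith [mul_pos hp.pos hp.pos]

/-- If `p ≥ 5` is not a Wieferich prime, then the first case holds over `K = ℚ(√d)` for `p`, unless
`2` splits and `(d / p) = (-15 / p)`, or `2` is inert and `(d / p) = (-3 / p)`. -/
theorem weakCase_of (p : ℕ) [Fact p.Prime] (hp5 : 5 ≤ p) (hW : ¬ Pool.Agent.H11.NW.Wf p)
    (K : Type*) [Field K] [NumberField K] (hK : Module.finrank ℚ K = 2) (d : ℤ)
    (hd : Squarefree d) (hd1 : d ≠ 1) (δ : K) (hδ : δ ^ 2 = (d : K))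
    (h1 : d % 8 = 1 → legendreSym p d ≠ legendreSym p (-15))
    (h5 : d % 8 = 5 → legendreSym p d ≠ legendreSym p (-3)) : WeakCase K p := by
  intro a b c ha hb hc h
  by_contra hcon
  push Not at hcon
  obtain ⟨v, hv⟩ := exists_above K p Fact.out
  have hN : ∀ w : HeightOneSpectrum (𝓞 K), (p : 𝓞 K) ∈ w.asIdeal →
      w.valuation K a = w.valuation K b ∧ w.valuation K b = w.valuation K c := hcon
  have hvN := hN v hv
  rcases main p hp5 hW hK d hd hd1 δ hδ ha hb hc h with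
    (e | e | e) | ⟨e8, e | e | e | e⟩ | ⟨e8, e⟩
  · exact absurd hvN.1 (e v (Or.inr hv)).1.ne
  · exact absurd hvN.2 (e v (Or.inr hv)).1.ne
  · exact absurd (hvN.1.trans hvN.2) (e v (Or.inr hv)).1.ne'
  · obtain ⟨w, hw, hw'⟩ := (e p (Or.inr rfl)).1
    exact absurd (hN w hw).1 hw'.1.ne
  · obtain ⟨w, hw, hw'⟩ := (e p (Or.inr rfl)).1
    exact absurd (hN w hw).2 hw'.1.ne
  · obtain ⟨w, hw, hw'⟩ := (e p (Or.inr rfl)).1
    exact absurd ((hN w hw).1.trans (hN w hw).2) hw'.1.ne'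
  · exact h1 e8 e.2.2
  · exact h5 e8 e.2.1

/-- For a prime `p ≥ 5` which is not a Wieferich prime: if some prime above `p` divides one of the
variables, then all do. -/
theorem firstCase_of_weak (p : ℕ) [Fact p.Prime] (hp5 : 5 ≤ p) (hW : ¬ Pool.Agent.H11.NW.Wf p)
    (K : Type*) [Field K] [NumberField K] (hK : Module.finrank ℚ K = 2) (d : ℤ)
    (hd : Squarefree d) (hd1 : d ≠ 1) (δ : K) (hδ : δ ^ 2 = (d : K))
    (hweak : WeakCase K p) : FirstCase K p := by
  have hII : ∀ x y z : K, CII p x y z → ∀ v : HeightOneSpectrum (𝓞 K), (p : 𝓞 K) ∈ v.asIdeal →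
      Dv v x y z ∨ Dv v y z x := by
    intro x y z e v hv
    obtain ⟨⟨w₁, m₁, g₁⟩, ⟨w₂, m₂, g₂⟩⟩ := e p (Or.inr rfl)
    have hne : w₁ ≠ w₂ := by
      rintro rfl
      have := g₁.1.trans (g₂.1.trans_eq g₂.2)
      exact lt_irrefl _ this
    rcases at_most_two K hK p Fact.out w₁ w₂ v m₁ m₂ hv hne with rfl | rfl
    · exact Or.inl g₁
    · exact Or.inr g₂
  have hD : ∀ (v : HeightOneSpectrum (𝓞 K)) (x y z : K), Dv v x y z →
      ¬ (v.valuation K x = v.valuation K y ∧ v.valuation K y = v.valuation K z) :=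
    fun v x y z g hN => absurd hN.1 g.1.ne
  intro a b c ha hb hc h v hv hN
  obtain ⟨w, hw, hwN⟩ := hweak a b c ha hb hc h
  have r1 : v.valuation K b = v.valuation K c ∧ v.valuation K c = v.valuation K a :=
    ⟨hN.2, (hN.1.trans hN.2).symm⟩
  have r2 : v.valuation K c = v.valuation K a ∧ v.valuation K a = v.valuation K b :=
    ⟨r1.2, hN.1⟩
  rcases main p hp5 hW hK d hd hd1 δ hδ ha hb hc h with
    (e | e | e) | ⟨e8, e | e | e | e⟩ | ⟨e8, e⟩
  · exact hD v a b c (e v (Or.inr hv)) hN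
  · exact hD v b c a (e v (Or.inr hv)) r1
  · exact hD v c a b (e v (Or.inr hv)) r2
  · rcases hII _ _ _ e v hv with g | g
    · exact hD v a b c g hN
    · exact hD v b c a g r1
  · rcases hII _ _ _ e v hv with g | g
    · exact hD v b c a g r1
    · exact hD v c a b g r2
  · rcases hII _ _ _ e v hv with g | g
    · exact hD v c a b g r2
    · exact hD v a b c g hN
  · exact hwN (e.1 w hw)
  · exact hwN (e.1 w (Or.inr hw))

/-- the strong form -/
theorem firstCase_of (p : ℕ) [Fact p.Prime] (hp5 : 5 ≤ p) (hW : ¬ Pool.Agent.H11.NW.Wf p)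
    (K : Type*) [Field K] [NumberField K] (hK : Module.finrank ℚ K = 2) (d : ℤ)
    (hd : Squarefree d) (hd1 : d ≠ 1) (δ : K) (hδ : δ ^ 2 = (d : K))
    (h1 : d % 8 = 1 → legendreSym p d ≠ legendreSym p (-15))
    (h5 : d % 8 = 5 → legendreSym p d ≠ legendreSym p (-3)) : FirstCase K p :=
  firstCase_of_weak p hp5 hW K hK d hd hd1 δ hδ
    (weakCase_of p hp5 hW K hK d hd hd1 δ hδ h1 h5)

end Pool.Agent.H73.QX
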