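import Pool.Agent.H73.QX.Asm
import Pool.Agent.H27.QX.Cnt
import Pool.Agent.H71.NB.MassR
import Pool.Agent.H11.NW.Pnt

/-!
# QX Fin2: the analytic inputs
-/

set_option autoImplicit false

open NumberField IsDedekindDomain

namespace Pool.Agent.H73.QX

open Finset
open Pool.Agent.H11.NW (Wf)

theorem cntProp : CntProp := by
  classical
  intro G c hc hf
  have h1 : ∀ m₀ : ℕ, ∃ m : ℕ, m₀ ≤ m ∧ c * 2 ^ m ≤
      ∑ p ∈ (Ioc (2 * 2 ^ m) (12 * 2 ^ m - 1)).filter (fun p => p.Prime ∧ G p), Real.log p := by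
    intro m₀
    obtain ⟨m, hm, hm'⟩ := Filter.frequently_atTop.1 hf m₀
    refine ⟨m, hm, ?_⟩
    unfold mass at hm'
    convert hm' using 1
  have h2 := Pool.Agent.H27.QX.cnt_freq G c h1
  refine ⟨c / 12, by positivity, Filter.frequently_atTop.2 fun x₀ => ?_⟩
  obtain ⟨x, hx, hx'⟩ := h2 x₀
  refine ⟨x, hx, ?_⟩
  unfold cnt
  rw [mul_div_assoc]
  convert hx' using 1

theorem squarefree_neg_three : Squarefree (-3 : ℤ) := by
  rw [← Int.squarefree_natAbs]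
  exact Nat.prime_three.squarefree

theorem indProp (r : ℕ) : IndProp (r + 1) := by
  intro B hB hc
  exact Pool.Agent.H71.NB.exists_ind' (-3) squarefree_neg_three r B
    (fun d hd => ⟨(hB d hd).1, (hB d hd).2.2⟩) hc

/-- lower density of the non-Wieferich primes (helper11) -/
theorem lowProp : ∃ x₀ : ℕ, ∀ x : ℕ, x₀ ≤ x →
    3 / 160 * (x : ℝ) / Real.log x ≤ (cnt (fun p => ¬ Wf p) x : ℝ) := by
  classical
  obtain ⟨m₀, h⟩ := Pool.Agent.H11.NW.non_wieferich_count_nat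
  refine ⟨24 * 2 ^ m₀, fun x hx => (h x hx).trans (le_of_eq ?_)⟩
  unfold cnt
  congr 2
  ext p
  simp only [mem_filter]

/-- any mass proportion `c` of the non-Wieferich primes gives `MassProp r` for `10 / 2 ^ r < c` -/
theorem massProp_of (c : ℝ) (hc : ∃ m₀ : ℕ, ∀ m : ℕ, m₀ ≤ m → c * 2 ^ m ≤
      ∑ p ∈ (Ioc (2 * 2 ^ m) (12 * 2 ^ m - 1)).filter (fun p => p.Prime ∧ ¬ Wf p), Real.log p)
    (r : ℕ) (hcr : 10 / 2 ^ r < c) : MassProp r := by
  classical
  intro T hT hTin hI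
  have hT0 : (0 : ℤ) ∉ T := fun h0 => (hTin 0 h0).1.ne_zero rfl
  obtain ⟨m1, hm1⟩ := Pool.Agent.H71.NB.massr (-3) (by norm_num) T hT0 hI (fun p => ¬ Wf p) c hc
    ((c - 10 / 2 ^ T.card) / 2) (by rw [hT]; linarith)
  refine ⟨(c - 10 / 2 ^ T.card) / 2, by rw [hT]; linarith,
    (Filter.eventually_atTop.2 ⟨m1, fun m hm => ?_⟩).frequently⟩
  refine (hm1 m hm).trans (le_of_eq ?_)
  unfold mass
  congr 1
  ext p
  simp only [mem_filter]

theorem massProp5 : MassProp 5 :=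
  massProp_of (9 / 20) Pool.Agent.H11.NW.non_wieferich_mass 5 (by norm_num)

end Pool.Agent.H73.QX
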