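import Pool.Agent.H73.QX.Fin3
import Pool.Agent.H91.SP.FinQuad
import Pool.Agent.H27.QX.Split

/-!
# QX Fin4: the quadratic fields in which `2` splits (`H91.SP`)
-/

set_option autoImplicit false

open NumberField IsDedekindDomain

namespace Pool.Agent.H73.QX

open Finset
open Pool.Agent.H11.NW (Wf)

theorem weak_of_H91 (K : Type*) [Field K] [NumberField K] (p : ℕ) (h : H91SP.FirstCase p K) :
    WeakCase K p := h

/-- if `2` splits in the quadratic field `K`, the first case holds for almost all primes which are not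
Wieferich primes -/
theorem split_case (K : Type*) [Field K] [NumberField K] (hK : Module.finrank ℚ K = 2) (d : ℤ)
    (hd : Squarefree d) (hd1 : d ≠ 1) (hd8 : d % 8 = 1) (δ : K) (hδ : δ ^ 2 = (d : K)) :
    ∃ N : ℕ, ∀ p : ℕ, p.Prime → N ≤ p → ¬ Wf p → FirstCase K p := by
  obtain ⟨Q, hQ⟩ := Pool.Agent.H27.QX.exists_two hK d hd hd1 hd8 δ hδ
  have hfin := H91SP.bad_primes_finite K
  obtain ⟨M, hM⟩ := hfin.bddAbove
  refine ⟨M + 7, fun p hp hpN hW => ?_⟩
  haveI : Fact p.Prime := ⟨hp⟩
  have hgood : H91SP.Unr p K ∧ ¬ p ∣ NumberField.classNumber K := by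
    by_contra hcon
    have h1 : p ∈ {p : ℕ | p.Prime ∧ (¬ H91SP.Unr p K ∨ p ∣ NumberField.classNumber K)} := by
      refine ⟨hp, ?_⟩
      by_contra h2
      push Not at h2
      exact hcon h2
    have := hM h1
    omega
  refine firstCase_of_weak p (by omega) hW K hK d hd hd1 δ hδ (weak_of_H91 K p ?_)
  exact H91SP.fin_wief p K hK (by omega) hgood.1 hgood.2 Q hQ hW

end Pool.Agent.H73.QX
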