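import Pool.Agent.H73.QX.FC
import Pool.Agent.H91.SP.MirB

/-!
# QX Mix1: conjugation and the places above `p`; a relation between two solutions

`pull`: the valuation `x ↦ v (σ x)` is the valuation of a prime.  `swap`: if there are two primes above `p`
in a quadratic field, the conjugation interchanges them.  `int_trace`: a `p`-integral trace is congruent to
an integer.  `mix_a`: for two solutions `(a, b, c)`, `(a', b', c')` with `v (c) = v (c') = 1` at all `v ∣ p`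
and `b / (a + b) + b' / (a' + b') ≡ k`, the element `Γ(a, b) Γ(a', b') ζ ^ k` is a `p`-th power
(`p` does not divide the class number).
-/

set_option autoImplicit false

open NumberField IsDedekindDomain

namespace Pool.Agent.H73.QX

open H91SP
open Pool.Agent.H22.WQ (IsCj)

section places

variable {K : Type*} [Field K] [NumberField K]

private lemma mx_pow (e : 𝓞 K ≃+* 𝓞 K) (v : HeightOneSpectrum (𝓞 K)) (n : ℕ) (x : 𝓞 K) :
    x ∈ (HeightOneSpectrum.comap (e : 𝓞 K →+* 𝓞 K) e.surjective v).asIdeal ^ n ↔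
      e x ∈ v.asIdeal ^ n := by
  have h1 : (HeightOneSpectrum.comap (e : 𝓞 K →+* 𝓞 K) e.surjective v).asIdeal =
      Ideal.map (e.symm : 𝓞 K →+* 𝓞 K) v.asIdeal := by
    rw [HeightOneSpectrum.comap_asIdeal]
    exact (Ideal.map_symm e).symm
  have h2 : (HeightOneSpectrum.comap (e : 𝓞 K →+* 𝓞 K) e.surjective v).asIdeal ^ n =
      Ideal.comap (e : 𝓞 K →+* 𝓞 K) (v.asIdeal ^ n) := by
    rw [h1, ← Ideal.map_pow]
    exact Ideal.map_symm e
  rw [h2, Ideal.mem_comap]
  rfl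

private lemma mx_int (e : 𝓞 K ≃+* 𝓞 K) (v : HeightOneSpectrum (𝓞 K)) (x : 𝓞 K) :
    (HeightOneSpectrum.comap (e : 𝓞 K →+* 𝓞 K) e.surjective v).intValuation x =
      v.intValuation (e x) := by
  by_cases hx : x = 0
  · subst hx
    simp
  have hex : e x ≠ 0 := by
    intro h
    exact hx ((map_eq_zero_iff e e.injective).1 h)
  apply le_antisymm
  · rw [v.intValuation_if_neg hex, HeightOneSpectrum.intValuation_le_pow_iff_mem, mx_pow,
      ← HeightOneSpectrum.intValuation_le_pow_iff_mem, ← v.intValuation_if_neg hex]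
  · rw [(HeightOneSpectrum.comap (e : 𝓞 K →+* 𝓞 K) e.surjective v).intValuation_if_neg hx,
      HeightOneSpectrum.intValuation_le_pow_iff_mem, ← mx_pow,
      ← HeightOneSpectrum.intValuation_le_pow_iff_mem, ← HeightOneSpectrum.intValuation_if_neg _ hx]

theorem pull (σ : K ≃ₐ[ℚ] K) (v : HeightOneSpectrum (𝓞 K)) : ∃ v' : HeightOneSpectrum (𝓞 K),
      (∀ x : K, v'.valuation K x = v.valuation K (σ x)) ∧
      ∀ n : ℕ, (n : 𝓞 K) ∈ v.asIdeal → (n : 𝓞 K) ∈ v'.asIdeal := by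
  set e : 𝓞 K ≃+* 𝓞 K := RingOfIntegers.mapRingEquiv σ.toRingEquiv with he
  refine ⟨HeightOneSpectrum.comap (e : 𝓞 K →+* 𝓞 K) e.surjective v, ?_, ?_⟩
  · intro x
    obtain ⟨a, b, hb, rfl⟩ := IsFractionRing.div_surjective (A := 𝓞 K) x
    have h1 : ∀ y : 𝓞 K, σ (algebraMap (𝓞 K) K y) = algebraMap (𝓞 K) K (e y) := fun y => rfl
    rw [map_div₀, map_div₀ σ, map_div₀, h1, h1, HeightOneSpectrum.valuation_of_algebraMap,
      HeightOneSpectrum.valuation_of_algebraMap, HeightOneSpectrum.valuation_of_algebraMap,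
      HeightOneSpectrum.valuation_of_algebraMap, mx_int, mx_int]
  · intro n hn
    have h1 := (mx_pow e v 1 (n : 𝓞 K)).2 (by rwa [pow_one, map_natCast])
    rwa [pow_one] at h1

theorem ext_val (v w : HeightOneSpectrum (𝓞 K)) (h : ∀ x : K, v.valuation K x = w.valuation K x) :
    v = w := by
  apply HeightOneSpectrum.ext
  ext x
  rw [← HeightOneSpectrum.valuation_lt_one_iff_mem (K := K), h,
    HeightOneSpectrum.valuation_lt_one_iff_mem (K := K)]

/-- an integer is a unit at `v ∣ p` if it is not divisible by `p` -/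
theorem int_val_eq_one (p : ℕ) (hp : p.Prime) (v : HeightOneSpectrum (𝓞 K)) (hv : (p : 𝓞 K) ∈ v.asIdeal)
    (n : ℤ) (hn : ¬ (p : ℤ) ∣ n) : v.valuation K (n : K) = 1 := by
  refine le_antisymm (sp_intCast_le v n) (not_lt.1 fun h => hn ?_)
  have h1 : (n : 𝓞 K) ∈ v.asIdeal := by
    rw [← HeightOneSpectrum.valuation_lt_one_iff_mem (K := K)]
    simpa using h
  by_contra hn
  have hc : IsCoprime (p : ℤ) n := (Nat.prime_iff_prime_int.1 hp).coprime_iff_not_dvd.2 hn
  obtain ⟨a, b, hab⟩ := hc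
  have h2 : (1 : 𝓞 K) ∈ v.asIdeal := by
    have h3 : (a : 𝓞 K) * (p : 𝓞 K) + (b : 𝓞 K) * (n : 𝓞 K) = 1 := by exact_mod_cast hab
    rw [← h3]
    exact v.asIdeal.add_mem (v.asIdeal.mul_mem_left _ hv) (v.asIdeal.mul_mem_left _ h1)
  exact v.isPrime.ne_top ((Ideal.eq_top_iff_one _).2 h2)

theorem dvd_of_val_lt (p : ℕ) (hp : p.Prime) (v : HeightOneSpectrum (𝓞 K)) (hv : (p : 𝓞 K) ∈ v.asIdeal)
    (n : ℤ) (h : v.valuation K (n : K) < 1) : (p : ℤ) ∣ n := by
  by_contra hn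
  rw [int_val_eq_one p hp v hv n hn] at h
  exact lt_irrefl _ h

theorem val_lt_of_dvd (p : ℕ) (v : HeightOneSpectrum (𝓞 K)) (hv : (p : 𝓞 K) ∈ v.asIdeal)
    (n : ℤ) (h : (p : ℤ) ∣ n) : v.valuation K (n : K) < 1 := by
  obtain ⟨m, rfl⟩ := h
  rw [natCast_mem_iff] at hv
  push_cast
  rw [map_mul]
  exact lt_of_le_of_lt (mul_le_of_le_one_right' (sp_intCast_le v m)) hv

/-- the trace of an element which is integral at all `v ∣ p` is congruent to an integer -/
theorem int_trace (p : ℕ) (hp : p.Prime) (σ : K ≃ₐ[ℚ] K) (hσ : IsCj K σ) (x : K)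
    (hx : ∀ v : HeightOneSpectrum (𝓞 K), (p : 𝓞 K) ∈ v.asIdeal → v.valuation K x ≤ 1) :
    ∃ k : ℤ, ∀ v : HeightOneSpectrum (𝓞 K), (p : 𝓞 K) ∈ v.asIdeal →
      v.valuation K (x + σ x - k) < 1 := by
  obtain ⟨r, hr⟩ := hσ.fix (x + σ x) (by rw [map_add, hσ.inv, add_comm])
  have hrle : ∀ v : HeightOneSpectrum (𝓞 K), (p : 𝓞 K) ∈ v.asIdeal → v.valuation K (r : K) ≤ 1 := by
    intro v hv
    obtain ⟨v', h1, h2⟩ := pull σ v
    rw [← hr]
    refine Valuation.map_add_le _ (hx v hv) ?_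
    rw [← h1]
    exact hx v' (h2 p hv)
  obtain ⟨v₀, hv₀⟩ := exists_above K p hp
  have hden : ¬ (p : ℤ) ∣ (r.den : ℤ) := by
    intro hd
    have hnum : ¬ (p : ℤ) ∣ r.num := by
      intro hn
      have h3 := Nat.dvd_gcd (Int.natAbs_dvd_natAbs.2 hn) (by simpa using Int.natAbs_dvd_natAbs.2 hd)
      have h4 : r.num.natAbs.gcd r.den = 1 := r.reduced
      rw [h4] at h3
      simp at h3
      exact hp.one_lt.ne' h3
    have h5 := int_val_eq_one p hp v₀ hv₀ r.num hnum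
    have h6 := val_lt_of_dvd p v₀ hv₀ (r.den : ℤ) hd
    have h7 : (r : K) * ((r.den : ℤ) : K) = ((r.num : ℤ) : K) := by
      have h8 : (r : ℚ) * (r.den : ℚ) = (r.num : ℚ) := Rat.mul_den_eq_num r
      have h9 := congrArg (fun q : ℚ => (q : K)) h8
      push_cast at h9
      push_cast
      exact h9
    have h10 := congrArg (v₀.valuation K) h7
    rw [map_mul, h5] at h10
    have h11 : v₀.valuation K (r : K) * v₀.valuation K ((r.den : ℤ) : K) < 1 :=
      lt_of_le_of_lt (mul_le_of_le_one_left' (hrle v₀ hv₀)) h6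
    rw [h10] at h11
    exact lt_irrefl _ h11
  obtain ⟨k, m, hkm⟩ : ∃ k m : ℤ, k * (r.den : ℤ) = r.num + p * m := by
    have hc : IsCoprime (p : ℤ) (r.den : ℤ) :=
      (Nat.prime_iff_prime_int.1 hp).coprime_iff_not_dvd.2 hden
    obtain ⟨a, b, hab⟩ := hc
    refine ⟨r.num * b, -(a * r.num), ?_⟩
    linear_combination r.num * hab
  refine ⟨k, fun v hv => ?_⟩
  rw [hr]
  have h7 : ((r : K) - (k : K)) * ((r.den : ℤ) : K) = ((-(p * m) : ℤ) : K) := by
    have h8 : (r : ℚ) * (r.den : ℚ) = (r.num : ℚ) := Rat.mul_den_eq_num r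
    have h9 := congrArg (fun q : ℚ => (q : K)) h8
    have h10 := congrArg (fun q : ℤ => (q : K)) hkm
    push_cast at h9 h10 ⊢
    linear_combination h9 - h10
  have h8 := congrArg (v.valuation K) h7
  rw [map_mul, int_val_eq_one p hp v hv _ hden, mul_one] at h8
  rw [h8]
  exact val_lt_of_dvd p v hv _ (by rw [dvd_neg]; exact dvd_mul_right _ _)

/-- the conjugation interchanges two primes above `p` -/
theorem swap (hK : Module.finrank ℚ K = 2) (p : ℕ) (hp : p.Prime) (σ : K ≃ₐ[ℚ] K) (hσ : IsCj K σ)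
    (v₁ v₂ : HeightOneSpectrum (𝓞 K)) (h₁ : (p : 𝓞 K) ∈ v₁.asIdeal)
    (h₂ : (p : 𝓞 K) ∈ v₂.asIdeal) (h12 : v₁ ≠ v₂) :
    ∀ x : K, v₂.valuation K (σ x) = v₁.valuation K x := by
  obtain ⟨w₂, a2, b2⟩ := pull σ v₂
  obtain ⟨w₁, a1, b1⟩ := pull σ v₁
  rcases at_most_two K hK p hp v₁ v₂ w₂ h₁ h₂ (b2 p h₂) h12 with h | h
  · intro x
    rw [← a2, h]
  · exfalso
    rw [h] at a2
    have h1 : w₁ = v₁ := by
      rcases at_most_two K hK p hp v₁ v₂ w₁ h₁ h₂ (b1 p h₁) h12 with h' | h'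
      · exact h'
      · exfalso
        apply h12
        apply ext_val
        intro x
        rw [a2 x, ← hσ.inv x, ← a1, h', hσ.inv, a2]
    rw [h1] at a1
    obtain ⟨x, hx1, hx2⟩ : ∃ x : 𝓞 K, x ∈ v₁.asIdeal ∧ x ∉ v₂.asIdeal := by
      by_contra hcon
      push Not at hcon
      have h3 : v₁.asIdeal ≤ v₂.asIdeal := hcon
      exact h12 (HeightOneSpectrum.ext (v₁.isMaximal.eq_of_le v₂.isPrime.ne_top h3))
    rw [← HeightOneSpectrum.valuation_lt_one_iff_mem (K := K)] at hx1 hx2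
    have hx2' : v₂.valuation K (x : K) = 1 := le_antisymm (v₂.valuation_le_one x) (not_lt.1 hx2)
    obtain ⟨r, hr⟩ := hσ.fix ((x : K) * σ x) (by rw [map_mul, hσ.inv, mul_comm])
    have hint : IsIntegral ℤ (r : K) := by
      rw [← hr]
      exact (x.isIntegral_coe).mul ((x.isIntegral_coe).map (σ.toAlgHom.restrictScalars ℤ))
    obtain ⟨n, hn⟩ : ∃ n : ℤ, (n : ℚ) = r := by
      have h4 : IsIntegral ℤ r := by
        have h5 : IsIntegral ℤ (algebraMap ℚ K r) := by rwa [eq_ratCast]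
        exact (isIntegral_algebraMap_iff (algebraMap ℚ K).injective).1 h5
      obtain ⟨n, hn⟩ := IsIntegrallyClosed.isIntegral_iff.1 h4
      exact ⟨n, hn⟩
    have hn' : (x : K) * σ x = (n : K) := by
      rw [hr, ← hn]
      push_cast
      rfl
    have h5 : v₁.valuation K ((n : ℤ) : K) < 1 := by
      rw [← hn', map_mul, ← a1]
      exact mul_lt_one_of_lt_of_le hx1 hx1.le
    have h6 := dvd_of_val_lt p hp v₁ h₁ n h5
    have h7 := val_lt_of_dvd p v₂ h₂ n h6
    rw [← hn', map_mul, ← a2, hx2', one_mul] at h7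
    exact lt_irrefl _ h7

end places

end Pool.Agent.H73.QX
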