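import Pool.Agent.H73.QX.Mix1

/-!
# QX Mix2: a relation between two solutions

`mix_a`: for two solutions `(a, b, c)`, `(a', b', c')` with `v (a), v (b) ≤ 1 = v (c)` at all `v ∣ p` (and
the same for the second one) and `b / (a + b) + b' / (a' + b') ≡ k` modulo all `v ∣ p`, the element
`Γ(a, b) Γ(a', b') ζ ^ k` is a `p`-th power (`p` does not divide the class number).
`mix_core`: so at a prime `Q` with `N(Q) ^ (p - 1) ≢ 1 (mod p ^ 2)` at which `Γ(a, b) ^ 2 ζ ^ e` and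
`Γ(a', b') ^ 2 ζ ^ e'` are `p`-th powers one has `e + e' ≡ 2 k (mod p)`.
-/

set_option autoImplicit false

open NumberField IsDedekindDomain

namespace Pool.Agent.H73.QX

open H91SP

/-- the valuation of `a + b` is that of `c` -/
theorem mix_sum (p : ℕ) [Fact p.Prime] {L : Type*} [Field L] [NumberField L]
    (w : HeightOneSpectrum (𝓞 L)) (hw : (p : 𝓞 L) ∈ w.asIdeal) (a b c : L)
    (ha : w.valuation L a ≤ 1) (hb : w.valuation L b ≤ 1) (hc : w.valuation L c = 1)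
    (h : a ^ p + b ^ p + c ^ p = 0) : w.valuation L (a + b) = 1 := by
  have h1 := val_sum_lt p w hw a b c ha hb hc.le h
  have h3 : a + b = -c + (a + b + c) := by ring
  rw [h3, Valuation.map_add_eq_of_lt_left]
  · rw [Valuation.map_neg]; exact hc
  · rw [Valuation.map_neg, hc]; exact h1

theorem mix_fac (p : ℕ) [Fact p.Prime] {L : Type*} [Field L] [NumberField L]
    (ζ : L) (hζ : IsPrimitiveRoot ζ p) (w : HeightOneSpectrum (𝓞 L))
    (hw : (p : 𝓞 L) ∈ w.asIdeal) (a b c : L) (ha : w.valuation L a ≤ 1) (hb : w.valuation L b ≤ 1)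
    (hc : w.valuation L c = 1) (h : a ^ p + b ^ p + c ^ p = 0) (j : ℕ) :
    w.valuation L (a + ζ ^ j * b) = 1 := by
  have hz : (ζ ^ j) ^ p = 1 := by rw [← pow_mul, mul_comm, pow_mul, hζ.pow_eq_one, one_pow]
  have hz1 := vl_val_zeta p (ζ ^ j) hz w
  refine mix_sum p w hw a (ζ ^ j * b) c ha ?_ hc ?_
  · rw [map_mul, hz1, one_mul]; exact hb
  · rw [mul_pow, hz, one_mul]; exact h

theorem mix_PV (p : ℕ) [Fact p.Prime] {L : Type*} [Field L] [NumberField L] (hp2 : p ≠ 2)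
    (ζ : L) (hζ : IsPrimitiveRoot ζ p) (a b c : L) (ha : a ≠ 0) (hb : b ≠ 0) (hc : c ≠ 0)
    (h : a ^ p + b ^ p + c ^ p = 0)
    (hloc : ∀ w : HeightOneSpectrum (𝓞 L), (p : 𝓞 L) ∈ w.asIdeal →
      w.valuation L a ≤ 1 ∧ w.valuation L b ≤ 1 ∧ w.valuation L c = 1) :
    PV p (Gam p ζ a b) := by
  intro w
  have hp : p.Prime := Fact.out
  by_cases hw : (p : 𝓞 L) ∈ w.asIdeal
  · obtain ⟨h1, h2, h3⟩ := hloc w hw
    refine ⟨1, one_ne_zero, ?_⟩
    rw [Gam, map_prod, map_one, one_pow]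
    refine Finset.prod_eq_one fun t _ => ?_
    rw [map_pow, mix_fac p ζ hζ w hw a b c h1 h2 h3 h, one_pow]
  · choose y hy0 hy using fun t : ℕ => val_add_zeta p hp2 ζ hζ w hw a b c ha hb hc h (iv p t)
    obtain ⟨z, hz0, hz⟩ : ∃ z : L, z ≠ 0 ∧
        max (w.valuation L a) (w.valuation L b) = w.valuation L z := by
      rcases le_total (w.valuation L a) (w.valuation L b) with h1 | h1
      · exact ⟨b, hb, max_eq_right h1⟩
      · exact ⟨a, ha, max_eq_left h1⟩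
    obtain ⟨m, hm⟩ := hp.odd_of_ne_two hp2
    refine ⟨z ^ m * ∏ t ∈ Finset.Ico 1 p, y t ^ t, mul_ne_zero (pow_ne_zero _ hz0)
      (Finset.prod_ne_zero_iff.2 fun t _ => pow_ne_zero _ (hy0 t)), ?_⟩
    have hsum : ∑ t ∈ Finset.Ico 1 p, t = m * p := by
      have h1 : ∑ t ∈ Finset.Ico 1 p, t = ∑ t ∈ Finset.range p, t := by
        rw [Finset.range_eq_Ico, Finset.sum_eq_sum_Ico_succ_bot hp.pos]
        simp
      rw [h1, Finset.sum_range_id, hm, Nat.add_sub_cancel]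
      rw [mul_comm (2 * m + 1), mul_assoc, Nat.mul_div_cancel_left _ (by norm_num)]
    rw [Gam, map_prod]
    have h2 : ∀ t ∈ Finset.Ico 1 p, w.valuation L ((a + ζ ^ iv p t * b) ^ t) =
        w.valuation L z ^ t * (w.valuation L (y t) ^ t) ^ p := by
      intro t _
      rw [map_pow, hy t, hz, mul_pow, ← pow_mul, ← pow_mul, mul_comm p t]
    rw [Finset.prod_congr rfl h2, Finset.prod_mul_distrib, Finset.prod_pow_eq_pow_sum, hsum,
      Finset.prod_pow, map_mul, map_pow, map_prod, mul_pow, ← pow_mul]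
    congr 2
    exact Finset.prod_congr rfl fun t _ => (map_pow _ _ _).symm

theorem mix_lin (p : ℕ) [Fact p.Prime] {L : Type*} [Field L] [NumberField L] (hp2 : p ≠ 2) (ζ : L)
    (hζ : IsPrimitiveRoot ζ p) (w : HeightOneSpectrum (𝓞 L)) (hw : (p : 𝓞 L) ∈ w.asIdeal)
    (hπ : w.valuation L (1 - ζ) = WithZero.exp (-1 : ℤ)) (a b c : L)
    (ha : w.valuation L a ≤ 1) (hb : w.valuation L b ≤ 1) (hc : w.valuation L c = 1)
    (h : a ^ p + b ^ p + c ^ p = 0) :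
    Lin w ζ (Gam p ζ a b / ((a + b) ^ ((p - 1) / 2)) ^ p) (b / (a + b)) :=
  Lin_Gam w ζ p hp2 hζ hw hπ a b ha hb (mix_sum p w hw a b c ha hb hc h)

theorem mix_a (p : ℕ) [Fact p.Prime] (K : Type*) {L : Type*} [Field K] [NumberField K]
    [Field L] [NumberField L] [Algebra K L] [IsCyclotomicExtension {p} K L]
    (hp2 : p ≠ 2) (hu : Unr p K) (hcl : ¬ p ∣ NumberField.classNumber K)
    (ζ : L) (hζ : IsPrimitiveRoot ζ p)
    (a b c : K) (ha : a ≠ 0) (hb : b ≠ 0) (hc : c ≠ 0) (h : a ^ p + b ^ p + c ^ p = 0)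
    (hloc : ∀ v : HeightOneSpectrum (𝓞 K), (p : 𝓞 K) ∈ v.asIdeal →
      v.valuation K a ≤ 1 ∧ v.valuation K b ≤ 1 ∧ v.valuation K c = 1)
    (a' b' c' : K) (ha' : a' ≠ 0) (hb' : b' ≠ 0) (hc' : c' ≠ 0) (h' : a' ^ p + b' ^ p + c' ^ p = 0)
    (hloc' : ∀ v : HeightOneSpectrum (𝓞 K), (p : 𝓞 K) ∈ v.asIdeal →
      v.valuation K a' ≤ 1 ∧ v.valuation K b' ≤ 1 ∧ v.valuation K c' = 1)
    (k : ℤ)
    (hk : ∀ v : HeightOneSpectrum (𝓞 K), (p : 𝓞 K) ∈ v.asIdeal →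
      v.valuation K (b / (a + b) + b' / (a' + b') - k) < 1) :
    ∃ B : L, Gam p ζ (algebraMap K L a) (algebraMap K L b) *
      Gam p ζ (algebraMap K L a') (algebraMap K L b') * ζ ^ k = B ^ p := by
  have hp : p.Prime := Fact.out
  have hζ0 : ζ ≠ 0 := hζ.ne_zero hp.ne_zero
  have emb : ∀ x y z : K, x ≠ 0 → y ≠ 0 → z ≠ 0 → x ^ p + y ^ p + z ^ p = 0 →
      (∀ v : HeightOneSpectrum (𝓞 K), (p : 𝓞 K) ∈ v.asIdeal →
        v.valuation K x ≤ 1 ∧ v.valuation K y ≤ 1 ∧ v.valuation K z = 1) →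
      algebraMap K L x ≠ 0 ∧ algebraMap K L y ≠ 0 ∧ algebraMap K L z ≠ 0 ∧
      algebraMap K L x ^ p + algebraMap K L y ^ p + algebraMap K L z ^ p = 0 ∧
      (∀ w : HeightOneSpectrum (𝓞 L), (p : 𝓞 L) ∈ w.asIdeal →
        w.valuation L (algebraMap K L x) ≤ 1 ∧ w.valuation L (algebraMap K L y) ≤ 1 ∧
        w.valuation L (algebraMap K L z) = 1) ∧
      (∀ j : ℕ, algebraMap K L x + ζ ^ j * algebraMap K L y ≠ 0) ∧
      Gam p ζ (algebraMap K L x) (algebraMap K L y) ≠ 0 := by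
    intro x y z hx hy hz hxyz hl
    have e1 : algebraMap K L x ^ p + algebraMap K L y ^ p + algebraMap K L z ^ p = 0 := by
      rw [← map_pow, ← map_pow, ← map_pow, ← map_add, ← map_add, hxyz, map_zero]
    have e0 : algebraMap K L z ≠ 0 := by simpa using hz
    have e2 : ∀ j : ℕ, algebraMap K L x + ζ ^ j * algebraMap K L y ≠ 0 := fun j =>
      add_zeta_ne_zero p hp2 ζ hζ _ _ _ e0 e1 j
    refine ⟨by simpa using hx, by simpa using hy, e0, e1, ?_, e2, ?_⟩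
    · intro w hw
      obtain ⟨v, e, he, hv, hval⟩ := fa_nat_under K L w p hw
      obtain ⟨h1, h2, h3⟩ := hl v hv
      rw [hval, hval, hval, h3, one_pow]
      exact ⟨pow_le_one' h1 e, pow_le_one' h2 e, rfl⟩
    · exact Finset.prod_ne_zero_iff.2 (fun i _ => pow_ne_zero _ (e2 _))
  obtain ⟨a0, b0, c0, hA, hlA, neA, gA⟩ := emb a b c ha hb hc h hloc
  obtain ⟨a0', b0', c0', hA', hlA', neA', gA'⟩ := emb a' b' c' ha' hb' hc' h' hloc'
  set A := algebraMap K L a with hAdef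
  set B := algebraMap K L b with hBdef
  set C := algebraMap K L c with hCdef
  set A' := algebraMap K L a' with hAdef'
  set B' := algebraMap K L b' with hBdef'
  set C' := algebraMap K L c' with hCdef'
  have sA : A + B ≠ 0 := by have := neA 0; rwa [pow_zero, one_mul] at this
  have sA' : A' + B' ≠ 0 := by have := neA' 0; rwa [pow_zero, one_mul] at this
  set m := (p - 1) / 2 with hm
  set U := (A + B) ^ m * (A' + B') ^ m with hU
  have hU0 : U ≠ 0 := mul_ne_zero (pow_ne_zero _ sA) (pow_ne_zero _ sA')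
  set G := Gam p ζ A B * Gam p ζ A' B' * ζ ^ k with hG
  set Λ := G * U⁻¹ ^ p with hΛ
  have hG0 : G ≠ 0 := mul_ne_zero (mul_ne_zero gA gA') (zpow_ne_zero _ hζ0)
  have hΛ0 : Λ ≠ 0 := mul_ne_zero hG0 (pow_ne_zero _ (inv_ne_zero hU0))
  have hPV : PV p Λ := by
    rw [hΛ, hG]
    exact PV_mul p _ _ (PV_mul p _ _ (PV_mul p _ _ (mix_PV p hp2 ζ hζ A B C a0 b0 c0 hA hlA)
      (mix_PV p hp2 ζ hζ A' B' C' a0' b0' c0' hA' hlA')) (PV_zpow p _ _ (PV_zeta p ζ hζ)))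
      (PV_pow_self p _ (inv_ne_zero hU0))
  have hEig : Eig p K ζ Λ := by
    rw [hΛ, hG]
    exact Eig_mul p K ζ _ _ (Eig_mul p K ζ _ _ (Eig_mul p K ζ _ _ (Eig_Gam p K ζ hζ a b neA)
      (Eig_Gam p K ζ hζ a' b' neA')) (Eig_zpow p K ζ _ _ hζ0 (Eig_zeta p K ζ hζ)))
      (Eig_pow_self p K ζ _ (inv_ne_zero hU0))
  have hlin : ∀ w : HeightOneSpectrum (𝓞 L), (p : 𝓞 L) ∈ w.asIdeal →
      w.valuation L (Λ - 1) ≤ w.valuation L (1 - ζ) ^ 2 := by
    intro w hw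
    have hπ := val_pi p K hp2 hu ζ hζ w hw
    have hπ1 : w.valuation L (1 - ζ) < 1 := by
      rw [hπ, ← WithZero.exp_zero, WithZero.exp_lt_exp]; norm_num
    obtain ⟨va, vb, vc⟩ := hlA w hw
    obtain ⟨va', vb', vc'⟩ := hlA' w hw
    have l1 := mix_lin p hp2 ζ hζ w hw hπ A B C va vb vc hA
    have l2 := mix_lin p hp2 ζ hζ w hw hπ A' B' C' va' vb' vc' hA'
    have l5 := Lin_mul w ζ hπ1 _ _ _ _ (Lin_mul w ζ hπ1 _ _ _ _ l1 l2)
      (Lin_zpow w ζ hπ1 _ _ k (Lin_zeta w ζ))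
    have e1 : Λ = Gam p ζ A B / ((A + B) ^ m) ^ p * (Gam p ζ A' B' / ((A' + B') ^ m) ^ p) *
        ζ ^ k := by
      rw [hΛ, hG, hU, mul_inv, mul_pow, inv_pow, inv_pow, div_eq_mul_inv, div_eq_mul_inv]
      ring
    have hc0' : w.valuation L (B / (A + B) + B' / (A' + B') + (k : L) * -1 - 0) ≤
        w.valuation L (1 - ζ) := by
      obtain ⟨v, e, he, hv, hval⟩ := fa_nat_under K L w p hw
      have e6 : B / (A + B) + B' / (A' + B') + (k : L) * -1 - 0 =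
          algebraMap K L (b / (a + b) + b' / (a' + b') - k) := by
        rw [map_sub, map_add, map_div₀, map_div₀, map_add, map_add, map_intCast]
        ring
      rw [e6, hπ]
      have h7 := hk v hv
      exact fa_lt_one_le w _ (by rw [hval]; exact pow_lt_one₀ zero_le h7 he.ne')
    have l6 := Lin_congr w ζ hπ1 _ _ 0 l5 hc0'
    have l7 := l6.2
    rw [← e1, zero_mul, sub_zero] at l7
    exact l7
  obtain ⟨y0, hy0⟩ := inj p K hp2 hu hcl ζ hζ Λ hΛ0 hPV hEig hlin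
  refine ⟨U * y0, ?_⟩
  rw [mul_pow, hy0, hΛ, ← mul_assoc, mul_comm (U ^ p), mul_assoc, ← mul_pow,
    mul_inv_cancel₀ hU0, one_pow, mul_one]

end Pool.Agent.H73.QX
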