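import Pool.Agent.H73.QX.Mix2
import Pool.Agent.H91.SP.Mir

/-!
# QX Mix3: the exponents at a prime of norm 3

`mix_core`: at a prime `Q` with `N(Q) ^ (p - 1) ≢ 1 (mod p ^ 2)` at which `Γ(a, b) ^ 2 ζ ^ e` and
`Γ(a', b') ^ 2 ζ ^ e'` are `p`-th powers, a relation `Γ(a, b) Γ(a', b') ζ ^ k = B ^ p` gives
`e + e' ≡ 2 k (mod p)`.  `mix_type`: the possible exponents at a prime of norm 3.
-/

set_option autoImplicit false

open NumberField IsDedekindDomain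

namespace Pool.Agent.H73.QX

open H91SP

theorem mix_core (p : ℕ) [Fact p.Prime] (K : Type*) {L : Type*} [Field K] [NumberField K]
    [Field L] [NumberField L] [Algebra K L] [IsCyclotomicExtension {p} K L]
    (hu : Unr p K) (ζ : L) (hζ : IsPrimitiveRoot ζ p)
    (Q : HeightOneSpectrum (𝓞 K)) (w : HeightOneSpectrum (𝓞 L)) (hw : (p : 𝓞 L) ∉ w.asIdeal)
    (hlie : w.asIdeal.LiesOver Q.asIdeal) (x y B : L) (k e e' : ℤ) (hB : x * y * ζ ^ k = B ^ p)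
    (hx : MirP w p (x ^ 2 * ζ ^ e)) (hy : MirP w p (y ^ 2 * ζ ^ e'))
    (hn : ¬ (p : ℤ) ∣ e + e' - 2 * k) :
    p ^ 2 ∣ Nat.card (𝓞 K ⧸ Q.asIdeal) ^ (p - 1) - 1 := by
  have hp : p.Prime := Fact.out
  have : NeZero p := ⟨hp.ne_zero⟩
  have hζ0 : ζ ≠ 0 := hζ.ne_zero hp.ne_zero
  have hz := gq_val_zeta w p ζ hζ
  have hkey : MirP w p ((B ^ 2) ^ p * ζ ^ (e + e' - 2 * k)) := by
    have e1 : (B ^ 2) ^ p * ζ ^ (e + e' - 2 * k) = (x ^ 2 * ζ ^ e) * (y ^ 2 * ζ ^ e') := by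
      rw [← pow_mul, mul_comm 2 p, pow_mul, ← hB]
      have e2 : (ζ ^ k) ^ 2 * ζ ^ (e + e' - 2 * k) = ζ ^ e * ζ ^ e' := by
        rw [← zpow_natCast, ← zpow_mul, ← zpow_add₀ hζ0, ← zpow_add₀ hζ0]
        congr 1
        push_cast
        ring
      calc (x * y * ζ ^ k) ^ 2 * ζ ^ (e + e' - 2 * k)
          = x ^ 2 * y ^ 2 * ((ζ ^ k) ^ 2 * ζ ^ (e + e' - 2 * k)) := by ring
        _ = _ := by rw [e2]; ring
    rw [e1]
    exact MirP_mul hx hy
  have hBv : w.valuation L (B ^ 2) = 1 := by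
    have h5 := MirP_val hkey
    rw [map_mul, map_zpow₀, hz, one_zpow, mul_one, map_pow] at h5
    exact (pow_eq_one_iff.1 h5).resolve_right hp.ne_zero
  have hB0 : B ^ 2 ≠ 0 := by intro h0; rw [h0, map_zero] at hBv; exact zero_ne_one hBv
  have hζk : MirP w p (ζ ^ (e + e' - 2 * k)) := by
    have e1 : ζ ^ (e + e' - 2 * k) = ((B ^ 2) ^ p * ζ ^ (e + e' - 2 * k)) * ((B ^ 2)⁻¹) ^ p := by
      rw [inv_pow, mul_right_comm, mul_inv_cancel₀ (pow_ne_zero _ hB0), one_mul]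
    rw [e1]
    exact MirP_mul hkey (MirP_pow_self (by rw [map_inv₀, hBv, inv_one]))
  obtain ⟨k', m, hkm⟩ : ∃ k' m : ℤ, (e + e' - 2 * k) * k' = 1 + p * m := by
    have hcop : IsCoprime (p : ℤ) (e + e' - 2 * k) :=
      (Nat.prime_iff_prime_int.mp hp).coprime_iff_not_dvd.2 hn
    obtain ⟨u, v, huv⟩ := hcop
    refine ⟨v, -u, ?_⟩
    linarith
  have hfin := MirP_zpow hζk k'
  have e4 : (ζ ^ (e + e' - 2 * k)) ^ k' = ζ := by
    rw [← zpow_mul, hkm, zpow_add₀ hζ0, zpow_one, zpow_mul, zpow_natCast, hζ.pow_eq_one, one_zpow,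
      mul_one]
  rw [e4] at hfin
  obtain ⟨D, _, hD⟩ := hfin
  have hres := res_core p ζ hζ w hw D (by
    rw [← Valuation.map_neg, neg_sub]
    exact hD.2)
  have : IsGalois K L := IsCyclotomicExtension.isGalois {p} K L
  have htow := card_tower K L Q w hlie
  rw [finrank_cyc p K L hu] at htow
  exact hres.trans htow

section pairs

variable {p : ℕ} [Fact p.Prime] {L : Type*} [Field L] [NumberField L] {ζ : L}
  {w : HeightOneSpectrum (𝓞 L)}

theorem typ_two (hp2 : p ≠ 2) (hζ : IsPrimitiveRoot ζ p) (x y : L)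
    (hx : w.valuation L x < 1) (hy : w.valuation L y = 1) :
    MirP w p (Gam p ζ x y ^ 2 * ζ ^ (2 : ℤ)) := by
  have hp : p.Prime := Fact.out
  have hζ0 : ζ ≠ 0 := hζ.ne_zero hp.ne_zero
  have hz := gq_val_zeta w p ζ hζ
  have h1 : FcC w (Gam p ζ x y) (ζ⁻¹ * (y ^ ((p - 1) / 2)) ^ p) := by
    refine ⟨?_, GamQ_one p hp2 ζ hζ w x y hx hy⟩
    rw [map_mul, map_inv₀, hz, map_pow, map_pow, hy, one_pow, one_pow, inv_one, mul_one]
  have h2 := FcC_mul w (FcC_pow w h1 2) (FcC_refl w (x := ζ ^ (2 : ℤ))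
    (by rw [map_zpow₀, hz, one_zpow]))
  have e1 : (ζ⁻¹ * (y ^ ((p - 1) / 2)) ^ p) ^ 2 * ζ ^ (2 : ℤ) = ((y ^ ((p - 1) / 2)) ^ 2) ^ p := by
    rw [zpow_ofNat, mul_pow, inv_pow, ← pow_mul, ← pow_mul, ← pow_mul, ← pow_mul]
    have e2 : (p - 1) / 2 * (2 * p) = (p - 1) / 2 * (p * 2) := by ring
    rw [e2]
    field_simp
  rw [e1] at h2
  exact ⟨(y ^ ((p - 1) / 2)) ^ 2, by rw [map_pow, map_pow, hy, one_pow, one_pow], h2⟩

theorem typ_zero (hp2 : p ≠ 2) (hζ : IsPrimitiveRoot ζ p) (x y : L)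
    (hx : w.valuation L x = 1) (hy : w.valuation L y < 1) :
    MirP w p (Gam p ζ x y ^ 2 * ζ ^ (0 : ℤ)) := by
  have hp : p.Prime := Fact.out
  have hζ0 : ζ ≠ 0 := hζ.ne_zero hp.ne_zero
  have hz := gq_val_zeta w p ζ hζ
  have h1 : FcC w (Gam p ζ y x) (ζ⁻¹ * (x ^ ((p - 1) / 2)) ^ p) := by
    refine ⟨?_, GamQ_one p hp2 ζ hζ w y x hy hx⟩
    rw [map_mul, map_inv₀, hz, map_pow, map_pow, hx, one_pow, one_pow, inv_one, mul_one]
  have h2 := mir_gam_mul p ζ hζ x y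
  set P := ∏ t ∈ Finset.Ico 1 p, (x + ζ ^ iv p t * y) with hP
  have hfac : ∀ j : ℕ, w.valuation L (x + ζ ^ j * y) = 1 := by
    intro j
    rw [Valuation.map_add_eq_of_lt_left]
    · exact hx
    · rw [map_mul, map_pow, hz, one_pow, one_mul, hx]
      exact hy
  have hPv : w.valuation L P = 1 := by
    rw [hP, map_prod]
    exact Finset.prod_eq_one fun t _ => hfac _
  have hyx := FcC_val w h1
  have hyx0 : Gam p ζ y x ≠ 0 := by intro h0; rw [h0, map_zero] at hyx; exact zero_ne_one hyx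
  have e1 : Gam p ζ x y = (ζ⁻¹ * P ^ p) * (Gam p ζ y x)⁻¹ := by
    rw [← h2, mul_assoc, mul_inv_cancel₀ hyx0, mul_one]
  have hzi : w.valuation L ζ⁻¹ = 1 := by rw [map_inv₀, hz, inv_one]
  have h3 : FcC w (Gam p ζ x y) ((ζ⁻¹ * P ^ p) * (ζ⁻¹ * (x ^ ((p - 1) / 2)) ^ p)⁻¹) := by
    rw [e1]
    refine FcC_mul w (FcC_refl w ?_) (FcC_inv w h1)
    rw [map_mul, hzi, map_pow, hPv, one_pow, one_mul]
  have hx0 : x ≠ 0 := by intro h0; rw [h0, map_zero] at hx; exact zero_ne_one hx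
  have e3 : (ζ⁻¹ * P ^ p) * (ζ⁻¹ * (x ^ ((p - 1) / 2)) ^ p)⁻¹ = (P * (x ^ ((p - 1) / 2))⁻¹) ^ p := by
    rw [mul_inv, inv_inv, mul_pow, inv_pow]
    field_simp
  rw [e3] at h3
  have h4 : MirP w p (Gam p ζ x y) :=
    ⟨P * (x ^ ((p - 1) / 2))⁻¹, by rw [map_mul, hPv, map_inv₀, map_pow, hx, one_pow, inv_one, one_mul], h3⟩
  rw [zpow_zero, mul_one, pow_two]
  exact MirP_mul h4 h4

theorem typ_neg (hp2 : p ≠ 2) (hζ : IsPrimitiveRoot ζ p) (hw : (p : 𝓞 L) ∉ w.asIdeal) (x y : L)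
    (hx : w.valuation L x = 1) (hxy : w.valuation L (x + y) < 1) :
    MirP w p (Gam p ζ x y ^ 2 * ζ ^ (1 : ℤ)) := by
  have hp : p.Prime := Fact.out
  have hodd : Odd p := hp.odd_of_ne_two hp2
  obtain ⟨h1, h2, s, hs, h3⟩ := GamQ_two p hp2 ζ hζ w hw x y hx hxy
  have hsv : w.valuation L s = 1 := by
    rcases hs with rfl | rfl
    · simp
    · simp
  have hsp : s ^ p = s := by
    rcases hs with rfl | rfl
    · simp
    · exact hodd.neg_one_pow
  rw [zpow_one]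
  exact mir_sq p ζ hζ w x y h1 h2 ⟨s, hsv, by rw [hsp]; exact ⟨hsv, h3⟩⟩

end pairs

section residues

variable {K : Type*} [Field K] [NumberField K]

theorem three_sq (Q : HeightOneSpectrum (𝓞 K)) (hQ : Nat.card (𝓞 K ⧸ Q.asIdeal) = 3) (u : K)
    (hu : Q.valuation K u = 1) : Q.valuation K (u ^ 2 - 1) < 1 := by
  obtain ⟨r, hr, hr'⟩ := sp_approx_unit Q u hu
  have hfin : Finite (𝓞 K ⧸ Q.asIdeal) := Nat.finite_of_card_ne_zero (by rw [hQ]; norm_num)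
  have : Q.asIdeal.IsMaximal := Q.isMaximal
  let _ : Field (𝓞 K ⧸ Q.asIdeal) := Ideal.Quotient.field Q.asIdeal
  have h1 : (Ideal.Quotient.mk Q.asIdeal r) ≠ 0 := by
    rw [ne_eq, Ideal.Quotient.eq_zero_iff_mem]
    exact hr
  have h2 := mir_pow_card 2 hQ hfin _ h1
  have h3 : r ^ 2 - 1 ∈ Q.asIdeal := by
    rw [← Ideal.Quotient.eq_zero_iff_mem, map_sub, map_pow, map_one, h2, sub_self]
  rw [← HeightOneSpectrum.valuation_lt_one_iff_mem (K := K)] at h3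
  have e1 : u ^ 2 - 1 = algebraMap (𝓞 K) K (r ^ 2 - 1) - ((r : K) ^ 2 - u ^ 2) := by
    rw [map_sub, map_pow, map_one]
    ring
  rw [e1]
  exact Valuation.map_sub_lt _ h3 (sp_pow_sub_lt Q _ _ (Q.valuation_le_one r) hu.le hr' 2)

theorem three_pow (p : ℕ) (hp : Odd p) (Q : HeightOneSpectrum (𝓞 K))
    (hQ : Nat.card (𝓞 K ⧸ Q.asIdeal) = 3) (u : K)
    (hu : Q.valuation K u = 1) : Q.valuation K (u ^ p - u) < 1 := by
  obtain ⟨m, rfl⟩ := hp
  have h1 := three_sq Q hQ u hu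
  have h2 := sp_pow_sub_lt Q (u ^ 2) 1 (by rw [map_pow, hu, one_pow]) (by simp) h1 m
  have e1 : u ^ (2 * m + 1) - u = u * ((u ^ 2) ^ m - 1 ^ m) := by
    rw [← pow_mul, one_pow]
    ring
  rw [e1, map_mul, hu, one_mul]
  exact h2

theorem three_neg (p : ℕ) (hp : Odd p) (Q : HeightOneSpectrum (𝓞 K))
    (hQ : Nat.card (𝓞 K ⧸ Q.asIdeal) = 3) (x y : K)
    (hx : Q.valuation K x = 1) (hy : Q.valuation K y = 1)
    (h : Q.valuation K (x ^ p + y ^ p) < 1) : Q.valuation K (x + y) < 1 := by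
  have h1 := three_pow p hp Q hQ x hx
  have h2 := three_pow p hp Q hQ y hy
  have e1 : x + y = (x ^ p + y ^ p) - ((x ^ p - x) + (y ^ p - y)) := by ring
  rw [e1]
  exact Valuation.map_sub_lt _ h (Valuation.map_add_lt _ h1 h2)

end residues

/-- the possible exponents at a prime of norm 3 -/
theorem mix_type (p : ℕ) [Fact p.Prime] (K : Type*) {L : Type*} [Field K] [NumberField K]
    [Field L] [NumberField L] [Algebra K L] [IsCyclotomicExtension {p} K L]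
    (hp2 : p ≠ 2) (hu : Unr p K) (ζ : L) (hζ : IsPrimitiveRoot ζ p)
    (Q : HeightOneSpectrum (𝓞 K)) (hQ : Nat.card (𝓞 K ⧸ Q.asIdeal) = 3)
    (w : HeightOneSpectrum (𝓞 L)) (hw : (p : 𝓞 L) ∉ w.asIdeal) (r : ℕ) (hr : 0 < r)
    (hval : ∀ x : K, w.valuation L (algebraMap K L x) = Q.valuation K x ^ r)
    (a b c : K) (h : a ^ p + b ^ p + c ^ p = 0)
    (ha : Q.valuation K a ≤ 1) (hb : Q.valuation K b ≤ 1) (hc : Q.valuation K c ≤ 1)
    (hm : Q.valuation K a = 1 ∨ Q.valuation K b = 1 ∨ Q.valuation K c = 1) :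
    ∃ e₁ e₂ : ℤ, ((e₁ = 2 ∧ e₂ = 2) ∨ (e₁ = 0 ∧ e₂ = 1) ∨ (e₁ = 1 ∧ e₂ = 0) ∨ (e₁ = 1 ∧ e₂ = 1)) ∧
      MirP w p (Gam p ζ (algebraMap K L a) (algebraMap K L b) ^ 2 * ζ ^ e₁) ∧
      MirP w p (Gam p ζ (algebraMap K L a) (algebraMap K L c) ^ 2 * ζ ^ e₂) := by
  have hp : p.Prime := Fact.out
  have hodd : Odd p := hp.odd_of_ne_two hp2
  have w1 : ∀ x : K, Q.valuation K x = 1 → w.valuation L (algebraMap K L x) = 1 := by
    intro x hx; rw [hval, hx, one_pow]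
  have w0 : ∀ x : K, Q.valuation K x < 1 → w.valuation L (algebraMap K L x) < 1 := by
    intro x hx; rw [hval]; exact pow_lt_one₀ zero_le hx hr.ne'
  have key : ∀ x y z : K, x ^ p + y ^ p + z ^ p = 0 → Q.valuation K y ≤ 1 → Q.valuation K z ≤ 1 →
      Q.valuation K x < 1 → (Q.valuation K y = 1 ∨ Q.valuation K z = 1) →
      Q.valuation K y = 1 ∧ Q.valuation K z = 1 ∧ Q.valuation K (y + z) < 1 := by
    intro x y z hxyz hy hz hx hyz
    have h1 : Q.valuation K (y ^ p + z ^ p) < 1 := by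
      have e1 : y ^ p + z ^ p = -x ^ p := by linear_combination hxyz
      rw [e1, Valuation.map_neg, map_pow]
      exact pow_lt_one₀ zero_le hx hp.ne_zero
    have h2 : Q.valuation K y = 1 ∧ Q.valuation K z = 1 := by
      rcases hyz with h2 | h2
      · refine ⟨h2, le_antisymm hz (not_lt.1 fun h3 => ?_)⟩
        have e1 : y ^ p = (y ^ p + z ^ p) - z ^ p := by ring
        have h4 : Q.valuation K (y ^ p) < 1 := by
          rw [e1]
          refine Valuation.map_sub_lt _ h1 ?_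
          rw [map_pow]
          exact pow_lt_one₀ zero_le h3 hp.ne_zero
        rw [map_pow, h2, one_pow] at h4
        exact lt_irrefl _ h4
      · refine ⟨le_antisymm hy (not_lt.1 fun h3 => ?_), h2⟩
        have e1 : z ^ p = (y ^ p + z ^ p) - y ^ p := by ring
        have h4 : Q.valuation K (z ^ p) < 1 := by
          rw [e1]
          refine Valuation.map_sub_lt _ h1 ?_
          rw [map_pow]
          exact pow_lt_one₀ zero_le h3 hp.ne_zero
        rw [map_pow, h2, one_pow] at h4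
        exact lt_irrefl _ h4
    exact ⟨h2.1, h2.2, three_neg p hodd Q hQ y z h2.1 h2.2 h1⟩
  rcases lt_or_eq_of_le ha with ha' | ha'
  · obtain ⟨h1, h2, h3⟩ := key a b c h hb hc ha' (by
      rcases hm with h1 | h1 | h1
      · exact absurd h1 ha'.ne
      · exact Or.inl h1
      · exact Or.inr h1)
    exact ⟨2, 2, Or.inl ⟨rfl, rfl⟩, typ_two hp2 hζ _ _ (w0 a ha') (w1 b h1),
      typ_two hp2 hζ _ _ (w0 a ha') (w1 c h2)⟩
  · rcases lt_or_eq_of_le hb with hb' | hb'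
    · obtain ⟨h1, h2, h3⟩ := key b a c (by linear_combination h) ha hc hb' (Or.inl ha')
      refine ⟨0, 1, Or.inr (Or.inl ⟨rfl, rfl⟩), typ_zero hp2 hζ _ _ (w1 a ha') (w0 b hb'),
        typ_neg hp2 hζ hw _ _ (w1 a ha') ?_⟩
      rw [← map_add]
      exact w0 _ h3
    · rcases lt_or_eq_of_le hc with hc' | hc'
      · obtain ⟨h1, h2, h3⟩ := key c a b (by linear_combination h) ha hb hc' (Or.inl ha')
        refine ⟨1, 0, Or.inr (Or.inr (Or.inl ⟨rfl, rfl⟩)), typ_neg hp2 hζ hw _ _ (w1 a ha') ?_,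
          typ_zero hp2 hζ _ _ (w1 a ha') (w0 c hc')⟩
        rw [← map_add]
        exact w0 _ h3
      · obtain ⟨g1, g2, g3, -⟩ := mir_good_of_card p hp2 Q (Or.inl hQ) a b c ha' hb' hc' h
        obtain ⟨u1, u2, u3⟩ := mir_good p K (L := L) hp2 hu ζ hζ w hw Q r hr hval a b ha' hb' g1
        obtain ⟨t1, t2, t3⟩ := mir_good p K (L := L) hp2 hu ζ hζ w hw Q r hr hval a c ha' hc' g3
        refine ⟨1, 1, Or.inr (Or.inr (Or.inr ⟨rfl, rfl⟩)), ?_, ?_⟩
        · rw [zpow_one]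
          exact mir_sq p ζ hζ w _ _ u1 u2 u3
        · rw [zpow_one]
          exact mir_sq p ζ hζ w _ _ t1 t2 t3

end Pool.Agent.H73.QX
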