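import Pool.Agent.H73.QX.Mix3
import Pool.Agent.H91.SP.Scale

/-!
# QX Mix4: the mixed case does not occur if there is a prime of norm 3

`p ≥ 5` unramified in the quadratic field `K`, not a divisor of the class number, `3 ^ (p - 1) ≢ 1 (mod p ^ 2)`,
`Q` a prime of norm 3: it is impossible that one prime above `p` divides `a` and the other one divides none
of `a, b, c`.
-/

set_option autoImplicit false

open NumberField IsDedekindDomain

namespace Pool.Agent.H73.QX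

open H91SP
open Pool.Agent.H22.WQ (IsCj)

/-- the exponents of `(a, b)` and `(a, c)` at a prime of norm 3, multiplied by `-2` -/
def Typ (e₁ e₂ : ℤ) : Prop :=
  (e₁ = 2 ∧ e₂ = 2) ∨ (e₁ = 0 ∧ e₂ = 1) ∨ (e₁ = 1 ∧ e₂ = 0) ∨ (e₁ = 1 ∧ e₂ = 1)

theorem scale3 (p : ℕ) [Fact p.Prime] (K : Type*) [Field K] [NumberField K]
    (Q : HeightOneSpectrum (𝓞 K)) (a b c : K) (ha : a ≠ 0) (hb : b ≠ 0) (hc : c ≠ 0) :
    ∃ l : K, l ≠ 0 ∧ ∀ v : HeightOneSpectrum (𝓞 K), ((p : 𝓞 K) ∈ v.asIdeal ∨ v = Q) →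
      v.valuation K a ≤ v.valuation K l ∧ v.valuation K b ≤ v.valuation K l ∧
      v.valuation K c ≤ v.valuation K l ∧
      (v.valuation K a = v.valuation K l ∨ v.valuation K b = v.valuation K l ∨
        v.valuation K c = v.valuation K l) := by
  classical
  have hp0 : (p : 𝓞 K) ≠ 0 := Nat.cast_ne_zero.2 (Fact.out : p.Prime).ne_zero
  have hfin : {v : HeightOneSpectrum (𝓞 K) | (p : 𝓞 K) ∈ v.asIdeal}.Finite := by
    have h1 := Ideal.finite_factors (R := 𝓞 K) (I := Ideal.span {(p : 𝓞 K)})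
      (by simpa [Ideal.zero_eq_bot, Ideal.span_singleton_eq_bot] using hp0)
    refine h1.subset ?_
    intro v hv
    exact Ideal.dvd_span_singleton.2 hv
  have hex : ∀ v : HeightOneSpectrum (𝓞 K), ∃ x : K, x ≠ 0 ∧
      v.valuation K a ≤ v.valuation K x ∧ v.valuation K b ≤ v.valuation K x ∧
      v.valuation K c ≤ v.valuation K x ∧
      (v.valuation K a = v.valuation K x ∨ v.valuation K b = v.valuation K x ∨
        v.valuation K c = v.valuation K x) := by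
    intro v
    rcases le_total (v.valuation K a) (v.valuation K b) with h1 | h1
    · rcases le_total (v.valuation K b) (v.valuation K c) with h2 | h2
      · exact ⟨c, hc, h1.trans h2, h2, le_rfl, Or.inr (Or.inr rfl)⟩
      · exact ⟨b, hb, h1, le_rfl, h2, Or.inr (Or.inl rfl)⟩
    · rcases le_total (v.valuation K a) (v.valuation K c) with h2 | h2
      · exact ⟨c, hc, h2, h1.trans h2, le_rfl, Or.inr (Or.inr rfl)⟩
      · exact ⟨a, ha, le_rfl, h1, h2, Or.inl rfl⟩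
  choose f hf0 hf using hex
  obtain ⟨l, hl0, hl⟩ := sp_approx K (insert Q hfin.toFinset) f hf0
  refine ⟨l, hl0, fun v hv => ?_⟩
  have hv' : v ∈ insert Q hfin.toFinset := by
    rcases hv with hv | rfl
    · exact Finset.mem_insert_of_mem (hfin.mem_toFinset.2 hv)
    · exact Finset.mem_insert_self _ _
  rw [hl v hv']
  exact hf v

theorem mix_pair (p : ℕ) [Fact p.Prime] (K : Type*) [Field K] [NumberField K]
    (hp2 : p ≠ 2) (hu : Unr p K) (hcl : ¬ p ∣ NumberField.classNumber K)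
    (a b c : K) (ha : a ≠ 0) (hb : b ≠ 0) (hc : c ≠ 0) (h : a ^ p + b ^ p + c ^ p = 0)
    (hloc : ∀ v : HeightOneSpectrum (𝓞 K), (p : 𝓞 K) ∈ v.asIdeal →
      v.valuation K a ≤ v.valuation K b ∧ v.valuation K b = v.valuation K c)
    (a' b' c' : K) (ha' : a' ≠ 0) (hb' : b' ≠ 0) (hc' : c' ≠ 0) (h' : a' ^ p + b' ^ p + c' ^ p = 0)
    (hloc' : ∀ v : HeightOneSpectrum (𝓞 K), (p : 𝓞 K) ∈ v.asIdeal →
      v.valuation K a' ≤ v.valuation K b' ∧ v.valuation K b' = v.valuation K c')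
    (k₁ k₂ : ℤ)
    (hk₁ : ∀ v : HeightOneSpectrum (𝓞 K), (p : 𝓞 K) ∈ v.asIdeal →
      v.valuation K (b / (a + b) + b' / (a' + b') - k₁) < 1)
    (hk₂ : ∀ v : HeightOneSpectrum (𝓞 K), (p : 𝓞 K) ∈ v.asIdeal →
      v.valuation K (c / (a + c) + c' / (a' + c') - k₂) < 1)
    (Q : HeightOneSpectrum (𝓞 K)) (hQ : Nat.card (𝓞 K ⧸ Q.asIdeal) = 3)
    (hQp : (p : 𝓞 K) ∉ Q.asIdeal) (hq : ¬ p ^ 2 ∣ 3 ^ (p - 1) - 1) :
    ∃ e₁ e₂ e₁' e₂' : ℤ, Typ e₁ e₂ ∧ Typ e₁' e₂' ∧ (p : ℤ) ∣ e₁ + e₁' - 2 * k₁ ∧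
      (p : ℤ) ∣ e₂ + e₂' - 2 * k₂ := by
  have hp : p.Prime := Fact.out
  have : NeZero p := ⟨hp.ne_zero⟩
  set L := CyclotomicField p K with hL
  obtain ⟨w, r, hr, hlie, hval⟩ := H91SP.exists_above K L Q
  set ζ : L := IsCyclotomicExtension.zeta p K L with hζdef
  have hζ : IsPrimitiveRoot ζ p := IsCyclotomicExtension.zeta_spec p K L
  have hwp : (p : 𝓞 L) ∉ w.asIdeal := by
    intro hmem
    rw [natCast_mem_iff] at hmem
    rw [natCast_mem_iff] at hQp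
    have h1 : w.valuation L (p : L) = Q.valuation K (p : K) ^ r := by
      have hcast : algebraMap K L (p : K) = (p : L) := map_natCast _ p
      rw [← hval (p : K), hcast]
    have h2 : Q.valuation K (p : K) = 1 := le_antisymm (sp_natCast_le Q p) (not_lt.1 hQp)
    rw [h1, h2, one_pow] at hmem
    exact lt_irrefl _ hmem
  -- scaling
  have scl : ∀ x y z : K, x ≠ 0 → y ≠ 0 → z ≠ 0 → x ^ p + y ^ p + z ^ p = 0 →
      (∀ v : HeightOneSpectrum (𝓞 K), (p : 𝓞 K) ∈ v.asIdeal →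
        v.valuation K x ≤ v.valuation K y ∧ v.valuation K y = v.valuation K z) →
      ∃ X Y Z : K, X ≠ 0 ∧ Y ≠ 0 ∧ Z ≠ 0 ∧ X ^ p + Y ^ p + Z ^ p = 0 ∧
        (∀ v : HeightOneSpectrum (𝓞 K), (p : 𝓞 K) ∈ v.asIdeal →
          v.valuation K X ≤ 1 ∧ v.valuation K Y = 1 ∧ v.valuation K Z = 1) ∧
        (Q.valuation K X ≤ 1 ∧ Q.valuation K Y ≤ 1 ∧ Q.valuation K Z ≤ 1 ∧
          (Q.valuation K X = 1 ∨ Q.valuation K Y = 1 ∨ Q.valuation K Z = 1)) ∧
        Y / (X + Y) = y / (x + y) ∧ Z / (X + Z) = z / (x + z) := by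
    intro x y z hx hy hz hxyz hl
    obtain ⟨l, hl0, hls⟩ := scale3 p K Q x y z hx hy hz
    have hlv : ∀ v : HeightOneSpectrum (𝓞 K), v.valuation K l ≠ 0 := fun v =>
      (Valuation.ne_zero_iff _).2 hl0
    have hpos : ∀ v : HeightOneSpectrum (𝓞 K), 0 < v.valuation K l := fun v =>
      zero_lt_iff.2 (hlv v)
    refine ⟨x / l, y / l, z / l, div_ne_zero hx hl0, div_ne_zero hy hl0, div_ne_zero hz hl0, ?_, ?_,
      ?_, ?_, ?_⟩
    · rw [div_pow, div_pow, div_pow, ← add_div, ← add_div, hxyz, zero_div]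
    · intro v hv
      obtain ⟨s1, s2, s3, s4⟩ := hls v (Or.inl hv)
      obtain ⟨t1, t2⟩ := hl v hv
      have hyl : v.valuation K y = v.valuation K l := by
        rcases s4 with s4 | s4 | s4
        · exact le_antisymm s2 (s4 ▸ t1)
        · exact s4
        · exact t2.trans s4
      rw [map_div₀, map_div₀, map_div₀, ← t2, hyl, div_self (hlv v)]
      exact ⟨(div_le_one₀ (hpos v)).2 s1, rfl, rfl⟩
    · obtain ⟨s1, s2, s3, s4⟩ := hls Q (Or.inr rfl)
      rw [map_div₀, map_div₀, map_div₀, div_le_one₀ (hpos Q), div_le_one₀ (hpos Q),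
        div_le_one₀ (hpos Q)]
      refine ⟨s1, s2, s3, ?_⟩
      rcases s4 with s4 | s4 | s4
      · exact Or.inl (by rw [s4, div_self (hlv Q)])
      · exact Or.inr (Or.inl (by rw [s4, div_self (hlv Q)]))
      · exact Or.inr (Or.inr (by rw [s4, div_self (hlv Q)]))
    · rw [← add_div, div_div_div_cancel_right₀ hl0]
    · rw [← add_div, div_div_div_cancel_right₀ hl0]
  obtain ⟨A, B, C, hA, hB, hC, hsum, hp1, ⟨q1, q2, q3, q4⟩, r1, r2⟩ := scl a b c ha hb hc h hloc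
  obtain ⟨A', B', C', hA', hB', hC', hsum', hp1', ⟨q1', q2', q3', q4'⟩, r1', r2'⟩ :=
    scl a' b' c' ha' hb' hc' h' hloc'
  obtain ⟨e₁, e₂, ht, M1, M2⟩ := mix_type p K (L := L) hp2 hu ζ hζ Q hQ w hwp r hr hval A B C hsum
    q1 q2 q3 q4
  obtain ⟨e₁', e₂', ht', M1', M2'⟩ := mix_type p K (L := L) hp2 hu ζ hζ Q hQ w hwp r hr hval A' B' C'
    hsum' q1' q2' q3' q4'
  have hno : ¬ p ^ 2 ∣ Nat.card (𝓞 K ⧸ Q.asIdeal) ^ (p - 1) - 1 := by rw [hQ]; exact hq
  refine ⟨e₁, e₂, e₁', e₂', ht, ht', ?_, ?_⟩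
  · by_contra hcon
    obtain ⟨D, hD⟩ := mix_a p K (L := L) hp2 hu hcl ζ hζ A B C hA hB hC hsum
      (fun v hv => ⟨(hp1 v hv).1, (hp1 v hv).2.1.le, (hp1 v hv).2.2⟩) A' B' C' hA' hB' hC' hsum'
      (fun v hv => ⟨(hp1' v hv).1, (hp1' v hv).2.1.le, (hp1' v hv).2.2⟩) k₁
      (by intro v hv; rw [r1, r1']; exact hk₁ v hv)
    exact hno (mix_core p K hu ζ hζ Q w hwp hlie _ _ D k₁ e₁ e₁' hD M1 M1' hcon)
  · by_contra hcon
    obtain ⟨D, hD⟩ := mix_a p K (L := L) hp2 hu hcl ζ hζ A C B hA hC hB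
      (by linear_combination hsum)
      (fun v hv => ⟨(hp1 v hv).1, (hp1 v hv).2.2.le, (hp1 v hv).2.1⟩) A' C' B' hA' hC' hB'
      (by linear_combination hsum')
      (fun v hv => ⟨(hp1' v hv).1, (hp1' v hv).2.2.le, (hp1' v hv).2.1⟩) k₂
      (by intro v hv; rw [r2, r2']; exact hk₂ v hv)
    exact hno (mix_core p K hu ζ hζ Q w hwp hlie _ _ D k₂ e₂ e₂' hD M2 M2' hcon)

/-- the mixed case does not occur -/
theorem mixed_false (p : ℕ) [Fact p.Prime] (hp5 : 5 ≤ p) (K : Type*) [Field K] [NumberField K]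
    (hK : Module.finrank ℚ K = 2) (hu : Unr p K) (hcl : ¬ p ∣ NumberField.classNumber K)
    (σ : K ≃ₐ[ℚ] K) (hσ : IsCj K σ)
    (a b c : K) (ha : a ≠ 0) (hb : b ≠ 0) (hc : c ≠ 0) (h : a ^ p + b ^ p + c ^ p = 0)
    (v₁ v₂ : HeightOneSpectrum (𝓞 K)) (h₁ : (p : 𝓞 K) ∈ v₁.asIdeal) (h₂ : (p : 𝓞 K) ∈ v₂.asIdeal)
    (m1 : v₁.valuation K a < v₁.valuation K b) (m2 : v₁.valuation K b = v₁.valuation K c)
    (n1 : v₂.valuation K a = v₂.valuation K b) (n2 : v₂.valuation K b = v₂.valuation K c)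
    (Q : HeightOneSpectrum (𝓞 K)) (hQ : Nat.card (𝓞 K ⧸ Q.asIdeal) = 3)
    (hq : ¬ p ^ 2 ∣ 3 ^ (p - 1) - 1) : False := by
  have hp : p.Prime := Fact.out
  have hp2 : p ≠ 2 := by omega
  have hodd : Odd p := hp.odd_of_ne_two hp2
  have h12 : v₁ ≠ v₂ := by
    rintro rfl
    exact m1.ne n1
  have hv12 : ∀ v : HeightOneSpectrum (𝓞 K), (p : 𝓞 K) ∈ v.asIdeal → v = v₁ ∨ v = v₂ :=
    fun v hv => at_most_two K hK p hp v₁ v₂ v h₁ h₂ hv h12
  have hQp : (p : 𝓞 K) ∉ Q.asIdeal := by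
    refine mir_not_mem p Q ?_
    rw [hQ]
    exact (Nat.coprime_primes hp Nat.prime_three).2 (by omega)
  have hloc : ∀ v : HeightOneSpectrum (𝓞 K), (p : 𝓞 K) ∈ v.asIdeal →
      v.valuation K a ≤ v.valuation K b ∧ v.valuation K b = v.valuation K c := by
    intro v hv
    rcases hv12 v hv with rfl | rfl
    · exact ⟨m1.le, m2⟩
    · exact ⟨n1.le, n2⟩
  have hloc' : ∀ v : HeightOneSpectrum (𝓞 K), (p : 𝓞 K) ∈ v.asIdeal →
      v.valuation K (σ a) ≤ v.valuation K (σ b) ∧ v.valuation K (σ b) = v.valuation K (σ c) := by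
    intro v hv
    obtain ⟨v', e1, e2⟩ := pull σ v
    rw [← e1, ← e1, ← e1]
    exact hloc v' (e2 p hv)
  have h' : (σ a) ^ p + (σ b) ^ p + (σ c) ^ p = 0 := by
    rw [← map_pow, ← map_pow, ← map_pow, ← map_add, ← map_add, h, map_zero]
  have sab : ∀ x y z : K, z ≠ 0 → x ^ p + y ^ p + z ^ p = 0 → x + y ≠ 0 := by
    intro x y z hz hxyz h0
    have e1 : x ^ p = -y ^ p := by rw [eq_neg_of_add_eq_zero_left h0, hodd.neg_pow]
    rw [e1, neg_add_cancel, zero_add] at hxyz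
    exact hz ((pow_eq_zero_iff hp.ne_zero).1 hxyz)
  have hab := sab a b c hc h
  have hac := sab a c b hb (by linear_combination h)
  -- valuations of the sums
  have hsv : ∀ v : HeightOneSpectrum (𝓞 K), (p : 𝓞 K) ∈ v.asIdeal →
      v.valuation K (a + b) = v.valuation K b ∧ v.valuation K (a + c) = v.valuation K b ∧
      v.valuation K (a + b + c) < v.valuation K b := by
    intro v hv
    obtain ⟨l1, l2⟩ := hloc v hv
    have hb0 : v.valuation K b ≠ 0 := (Valuation.ne_zero_iff _).2 hb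
    have hbp : 0 < v.valuation K b := zero_lt_iff.2 hb0
    have e1 : v.valuation K (a / b) ≤ 1 := by rw [map_div₀, div_le_one₀ hbp]; exact l1
    have e2 : v.valuation K (b / b) = 1 := by rw [div_self hb, map_one]
    have e3 : v.valuation K (c / b) = 1 := by rw [map_div₀, ← l2, div_self hb0]
    have e4 : (a / b) ^ p + (b / b) ^ p + (c / b) ^ p = 0 := by
      rw [div_pow, div_pow, div_pow, ← add_div, ← add_div, h, zero_div]
    have f1 := mix_sum p v hv (a / b) (b / b) (c / b) e1 e2.le e3 e4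
    have f2 := mix_sum p v hv (a / b) (c / b) (b / b) e1 e3.le e2 (by linear_combination e4)
    have f3 := val_sum_lt p v hv (a / b) (b / b) (c / b) e1 e2.le e3.le e4
    rw [← add_div, map_div₀, div_eq_one_iff_eq hb0] at f1 f2
    rw [← add_div, ← add_div, map_div₀, div_lt_one₀ hbp] at f3
    exact ⟨f1, f2, f3⟩
  have hx : ∀ v : HeightOneSpectrum (𝓞 K), (p : 𝓞 K) ∈ v.asIdeal →
      v.valuation K (b / (a + b)) ≤ 1 := by
    intro v hv
    have hb0 : v.valuation K b ≠ 0 := (Valuation.ne_zero_iff _).2 hb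
    rw [map_div₀, (hsv v hv).1, div_self hb0]
  have hy : ∀ v : HeightOneSpectrum (𝓞 K), (p : 𝓞 K) ∈ v.asIdeal →
      v.valuation K (c / (a + c)) ≤ 1 := by
    intro v hv
    have hb0 : v.valuation K b ≠ 0 := (Valuation.ne_zero_iff _).2 hb
    rw [map_div₀, (hsv v hv).2.1, ← (hloc v hv).2, div_self hb0]
  obtain ⟨k₁, hk₁⟩ := int_trace p hp σ hσ (b / (a + b)) hx
  obtain ⟨k₂, hk₂⟩ := int_trace p hp σ hσ (c / (a + c)) hy
  obtain ⟨e₁, e₂, e₁', e₂', ht, ht', d1, d2⟩ := mix_pair p K hp2 hu hcl a b c ha hb hc h hloc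
    (σ a) (σ b) (σ c) (by simpa using ha) (by simpa using hb) (by simpa using hc) h' hloc' k₁ k₂
    (by
      intro v hv
      have := hk₁ v hv
      rwa [map_div₀ σ, map_add σ] at this)
    (by
      intro v hv
      have := hk₂ v hv
      rwa [map_div₀ σ, map_add σ] at this) Q hQ hQp hq
  -- at `v₂`
  have hsw := swap hK p hp σ hσ v₁ v₂ h₁ h₂ h12
  have hb1 : v₁.valuation K b ≠ 0 := (Valuation.ne_zero_iff _).2 hb
  have hb2 : v₂.valuation K b ≠ 0 := (Valuation.ne_zero_iff _).2 hb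
  obtain ⟨s1, s2, s3⟩ := hsv v₂ h₂
  obtain ⟨t1, t2, t3⟩ := hsv v₁ h₁
  have x1 : v₂.valuation K (b / (a + b) - ((k₁ - 1 : ℤ) : K)) < 1 := by
    have e1 : b / (a + b) - ((k₁ - 1 : ℤ) : K) = (b / (a + b) + σ (b / (a + b)) - k₁) +
        σ (a / (a + b)) := by
      have e2 : a / (a + b) = 1 - b / (a + b) := by field_simp; ring
      rw [e2, map_sub, map_one]
      push_cast
      ring
    rw [e1]
    refine Valuation.map_add_lt _ (hk₁ v₂ h₂) ?_
    rw [hsw, map_div₀, t1, div_lt_one₀ (zero_lt_iff.2 hb1)]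
    exact m1
  have x2 : v₂.valuation K (c / (a + c) - ((k₂ - 1 : ℤ) : K)) < 1 := by
    have e1 : c / (a + c) - ((k₂ - 1 : ℤ) : K) = (c / (a + c) + σ (c / (a + c)) - k₂) +
        σ (a / (a + c)) := by
      have e2 : a / (a + c) = 1 - c / (a + c) := by field_simp; ring
      rw [e2, map_sub, map_one]
      push_cast
      ring
    rw [e1]
    refine Valuation.map_add_lt _ (hk₂ v₂ h₂) ?_
    rw [hsw, map_div₀, t2, div_lt_one₀ (zero_lt_iff.2 hb1)]
    exact m1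
  have x3 : v₂.valuation K (b / (a + b) * (c / (a + c)) - 1) < 1 := by
    have e1 : b / (a + b) * (c / (a + c)) - 1 = -(a * (a + b + c) / ((a + b) * (a + c))) := by
      field_simp
      ring
    rw [e1, Valuation.map_neg, map_div₀, map_mul, map_mul, s1, s2, n1, div_lt_one₀
      (mul_pos (zero_lt_iff.2 hb2) (zero_lt_iff.2 hb2))]
    exact mul_lt_mul_of_pos_left s3 (zero_lt_iff.2 hb2)
  have x4 : v₂.valuation K (1 - b / (a + b)) = 1 := by
    have e1 : 1 - b / (a + b) = a / (a + b) := by field_simp; ring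
    rw [e1, map_div₀, s1, n1, div_self hb2]
  have hx2 := hx v₂ h₂
  have y1 : (p : ℤ) ∣ (k₁ - 1) * (k₂ - 1) - 1 := by
    refine dvd_of_val_lt p hp v₂ h₂ _ ?_
    have e1 : (((k₁ - 1) * (k₂ - 1) - 1 : ℤ) : K) = (b / (a + b) * (c / (a + c)) - 1) -
        ((b / (a + b) - ((k₁ - 1 : ℤ) : K)) * ((k₂ - 1 : ℤ) : K) +
          b / (a + b) * (c / (a + c) - ((k₂ - 1 : ℤ) : K))) := by
      push_cast
      ring
    rw [e1]
    refine Valuation.map_sub_lt _ x3 (Valuation.map_add_lt _ ?_ ?_)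
    · rw [map_mul]
      exact lt_of_le_of_lt (mul_le_of_le_one_right' (sp_intCast_le v₂ _)) x1
    · rw [map_mul]
      exact lt_of_le_of_lt (mul_le_of_le_one_left' hx2) x2
  have y2 : ¬ (p : ℤ) ∣ k₁ - 2 := by
    intro hd
    have e1 := val_lt_of_dvd p v₂ h₂ _ hd
    have e2 : (1 : K) - b / (a + b) = -(((k₁ - 2 : ℤ) : K) + (b / (a + b) - ((k₁ - 1 : ℤ) : K))) := by
      push_cast
      ring
    have e3 : v₂.valuation K (1 - b / (a + b)) < 1 := by
      rw [e2, Valuation.map_neg]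
      exact Valuation.map_add_lt _ e1 x1
    rw [x4] at e3
    exact lt_irrefl _ e3
  -- arithmetic
  have hp4 : ¬ (p : ℤ) ∣ 4 := by
    intro hd
    have h3 : p ∣ 4 := by exact_mod_cast hd
    have := Nat.le_of_dvd (by norm_num) h3
    omega
  have hp3 : ¬ (p : ℤ) ∣ 3 := by
    intro hd
    have h3 : p ∣ 3 := by exact_mod_cast hd
    have := Nat.le_of_dvd (by norm_num) h3
    omega
  have y3 : (p : ℤ) ∣ (e₁ + e₁' - 2) * (e₂ + e₂' - 2) - 4 := by
    have e1 : (e₁ + e₁' - 2) * (e₂ + e₂' - 2) - 4 =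
        4 * ((k₁ - 1) * (k₂ - 1) - 1) + (e₁ + e₁' - 2 * k₁) * (e₂ + e₂' - 2) +
          2 * (k₁ - 1) * (e₂ + e₂' - 2 * k₂) := by ring
    rw [e1]
    exact dvd_add (dvd_add (Dvd.dvd.mul_left y1 _) (Dvd.dvd.mul_right d1 _)) (Dvd.dvd.mul_left d2 _)
  have y4 : ¬ (p : ℤ) ∣ 4 - 2 * k₁ := by
    intro hd
    have e1 : (4 : ℤ) - 2 * k₁ = (k₁ - 2) * (-2) := by ring
    rw [e1] at hd
    rcases (Nat.prime_iff_prime_int.1 hp).dvd_or_dvd hd with h3 | h3
    · exact y2 h3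
    · rw [dvd_neg] at h3
      have h4 : p ∣ 2 := by exact_mod_cast h3
      have := Nat.le_of_dvd (by norm_num) h4
      omega
  rcases ht with ⟨rfl, rfl⟩ | ⟨rfl, rfl⟩ | ⟨rfl, rfl⟩ | ⟨rfl, rfl⟩ <;>
    rcases ht' with ⟨rfl, rfl⟩ | ⟨rfl, rfl⟩ | ⟨rfl, rfl⟩ | ⟨rfl, rfl⟩ <;>
    norm_num at y3 d1 <;>
    first
      | exact hp4 y3
      | exact hp3 y3
      | exact y4 d1

end Pool.Agent.H73.QX
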